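import Mathlib
set_option autoImplicit false

/-!
The coefficients of a product of matrices in different variables.
-/

namespace Pool.Agent.TH670.BR

open MvPolynomial

variable {R S : Type*} [CommRing R] [CommRing S] {n w : ℕ}

theorem coeff_mul_of_notMem {i : Fin n} {p : MvPolynomial (Fin n) R}
    (hp : p ∈ supported R {k : Fin n | k ≠ i}) (q : Polynomial R) (m : Fin n →₀ ℕ) :
    coeff m (Polynomial.aeval (X i : MvPolynomial (Fin n) R) q * p) =
      q.coeff (m i) * coeff (m.erase i) p := by
  classical
  have key : ∀ (e : ℕ), coeff m ((X i : MvPolynomial (Fin n) R) ^ e * p) =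
      if m i = e then coeff (m.erase i) p else 0 := by
    intro e
    rw [X_pow_eq_monomial, coeff_monomial_mul', one_mul]
    by_cases h : m i = e
    · rw [if_pos h, if_pos (by rw [Finsupp.single_le_iff]; omega)]
      congr 1
      ext j
      rw [Finsupp.tsub_apply, Finsupp.erase_apply, Finsupp.single_apply]
      by_cases hj : j = i
      · subst hj
        rw [if_pos rfl, if_pos rfl, h, Nat.sub_self]
      · rw [if_neg hj, if_neg (Ne.symm hj), Nat.sub_zero]
    · rw [if_neg h]
      by_cases h2 : Finsupp.single i e ≤ m
      · rw [if_pos h2]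
        rw [Finsupp.single_le_iff] at h2
        by_contra h3
        rw [mem_supported] at hp
        have h4 : i ∈ p.vars := by
          rw [mem_vars_iff_mem_support]
          refine ⟨m - Finsupp.single i e, mem_support_iff.2 h3, ?_⟩
          rw [Finsupp.mem_support_iff, Finsupp.tsub_apply, Finsupp.single_eq_same]
          omega
        exact hp h4 rfl
      · rw [if_neg h2]
  rw [Polynomial.aeval_eq_sum_range, Finset.sum_mul, coeff_sum]
  simp only [smul_mul_assoc, coeff_smul, key, smul_eq_mul, mul_ite, mul_zero]
  rw [Finset.sum_ite_eq]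
  split_ifs with h
  · rfl
  · rw [Polynomial.coeff_eq_zero_of_natDegree_lt (by simpa using h), zero_mul]

/-- the product of the matrices of a list -/
noncomputable def prodL (l : List (Fin n × Matrix (Fin w) (Fin w) (Polynomial R))) :
    Matrix (Fin w) (Fin w) (MvPolynomial (Fin n) R) :=
  (l.map fun p => p.2.map (Polynomial.aeval (X p.1 : MvPolynomial (Fin n) R))).prod

theorem prodL_cons (p : Fin n × Matrix (Fin w) (Fin w) (Polynomial R))
    (l : List (Fin n × Matrix (Fin w) (Fin w) (Polynomial R))) :
    prodL (p :: l) = p.2.map (Polynomial.aeval (X p.1 : MvPolynomial (Fin n) R)) * prodL l := by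
  unfold prodL
  rw [List.map_cons, List.prod_cons]

theorem prodL_supp (l : List (Fin n × Matrix (Fin w) (Fin w) (Polynomial R))) :
    ∀ a b, prodL l a b ∈ supported R {k : Fin n | k ∈ l.map Prod.fst} := by
  induction l with
  | nil =>
    intro a b
    have h1 : prodL ([] : List (Fin n × Matrix (Fin w) (Fin w) (Polynomial R))) = 1 := rfl
    rw [h1, Matrix.one_apply]
    split_ifs
    · exact Subalgebra.one_mem _
    · exact Subalgebra.zero_mem _
  | cons p l ih =>
    intro a b
    rw [prodL_cons, Matrix.mul_apply]
    refine Subalgebra.sum_mem _ fun c _ => Subalgebra.mul_mem _ ?_ ?_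
    · rw [Matrix.map_apply]
      refine (Algebra.adjoin_le (S := supported R {k : Fin n | k ∈ (p :: l).map Prod.fst}) ?_)
        (Polynomial.aeval_mem_adjoin_singleton R (X p.1 : MvPolynomial (Fin n) R))
      rw [Set.singleton_subset_iff]
      exact Algebra.subset_adjoin ⟨p.1, by simp, rfl⟩
    · refine supported_mono ?_ (ih c b)
      intro k hk
      simp only [Set.mem_ofPred_eq, List.map_cons, List.mem_cons] at hk ⊢
      exact Or.inr hk

theorem coeff_prodL (l : List (Fin n × Matrix (Fin w) (Fin w) (Polynomial R)))
    (hl : (l.map Prod.fst).Nodup) : ∀ (m : Fin n →₀ ℕ) (a b : Fin w),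
      (∀ i, i ∉ l.map Prod.fst → m i = 0) →
      coeff m (prodL l a b) = (l.map fun p => p.2.map fun q => q.coeff (m p.1)).prod a b := by
  classical
  induction l with
  | nil =>
    intro m a b hm
    have : m = 0 := by
      ext i
      exact hm i (by simp)
    subst this
    have h1 : prodL ([] : List (Fin n × Matrix (Fin w) (Fin w) (Polynomial R))) = 1 := rfl
    have h2 : (([] : List (Fin n × Matrix (Fin w) (Fin w) (Polynomial R))).map
        fun p => p.2.map fun q => q.coeff ((0 : Fin n →₀ ℕ) p.1)).prod = 1 := rfl
    rw [h1, h2, Matrix.one_apply, Matrix.one_apply]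
    split_ifs
    · rw [coeff_zero_one]
    · rw [coeff_zero]
  | cons p l ih =>
    intro m a b hm
    rw [List.map_cons, List.nodup_cons] at hl
    rw [prodL_cons, Matrix.mul_apply, coeff_sum, List.map_cons, List.prod_cons, Matrix.mul_apply]
    refine Finset.sum_congr rfl fun c _ => ?_
    rw [Matrix.map_apply, Matrix.map_apply, coeff_mul_of_notMem
      (supported_mono (fun k hk => ?_) (prodL_supp l c b)), ih hl.2]
    · have h0 : (l.map fun p' => p'.2.map fun q => q.coeff ((m.erase p.1) p'.1)) =
          l.map fun p' => p'.2.map fun q => q.coeff (m p'.1) := by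
        refine List.map_congr_left fun p' hp' => ?_
        have h1 : p'.1 ≠ p.1 := by
          intro h
          apply hl.1
          rw [← h]
          exact List.mem_map.2 ⟨p', hp', rfl⟩
        rw [Finsupp.erase_ne h1]
      rw [h0]
    · intro i hi
      by_cases hip : i = p.1
      · rw [hip, Finsupp.erase_same]
      · rw [Finsupp.erase_ne hip]
        apply hm
        rw [List.map_cons, List.mem_cons]
        rintro (h | h)
        · exact hip h
        · exact hi h
    · simp only [Set.mem_ofPred_eq] at hk ⊢
      rintro rfl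
      exact hl.1 hk

/-- the polynomial computed by a read-once program in the order `σ` -/
noncomputable def pval (σ : Equiv.Perm (Fin n)) (M : Fin n → Matrix (Fin w) (Fin w) (Polynomial R))
    (u v : Fin w → R) : MvPolynomial (Fin n) R :=
  ∑ a, ∑ b, C (u a) * (List.ofFn fun k : Fin n =>
    (M k).map (Polynomial.aeval (X (σ k) : MvPolynomial (Fin n) R))).prod a b * C (v b)

/-- the coefficients of a read-once program -/
theorem coeff_pval (σ : Equiv.Perm (Fin n)) (M : Fin n → Matrix (Fin w) (Fin w) (Polynomial R))
    (u v : Fin w → R) (m : Fin n →₀ ℕ) :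
    coeff m (pval σ M u v) = ∑ a, ∑ b, u a * (List.ofFn fun k : Fin n =>
      (M k).map fun q => q.coeff (m (σ k))).prod a b * v b := by
  unfold pval
  rw [coeff_sum]
  refine Finset.sum_congr rfl fun a _ => ?_
  rw [coeff_sum]
  refine Finset.sum_congr rfl fun b _ => ?_
  rw [mul_assoc, coeff_C_mul, mul_comm _ (C (v b)), coeff_C_mul, mul_comm (v b), ← mul_assoc]
  congr 2
  have h1 : (List.ofFn fun k : Fin n =>
      (M k).map (Polynomial.aeval (X (σ k) : MvPolynomial (Fin n) R))).prod =
      prodL (List.ofFn fun k : Fin n => (σ k, M k)) := by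
    unfold prodL
    rw [List.map_ofFn]
    rfl
  have h2 : (List.ofFn fun k : Fin n => (M k).map fun q => q.coeff (m (σ k))).prod =
      ((List.ofFn fun k : Fin n => (σ k, M k)).map fun p =>
        p.2.map fun q => q.coeff (m p.1)).prod := by
    rw [List.map_ofFn]
    rfl
  rw [h1, h2]
  apply coeff_prodL
  · rw [List.map_ofFn, List.nodup_ofFn]
    exact σ.injective
  · intro i hi
    exfalso
    apply hi
    rw [List.map_ofFn, List.mem_ofFn]
    exact ⟨σ.symm i, by simp⟩

theorem map_list_prod_apply (φ : R →+* S) (l : List (Matrix (Fin w) (Fin w) R)) :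
    (l.prod).map φ = (l.map fun M => M.map φ).prod := by
  have := map_list_prod φ.mapMatrix l
  exact this

end Pool.Agent.TH670.BR
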