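import Mathlib
set_option autoImplicit false

/-!
Expansion of a polynomial in one of its variables, over an arbitrary commutative ring.
-/

namespace Pool.Agent.TH670.BR

open MvPolynomial

variable {R S : Type*} [CommRing R] [CommRing S] {n : ℕ}

/-- expansion in the variable `i` -/
noncomputable def Th (R : Type*) [CommRing R] {n : ℕ} (i : Fin n) :
    MvPolynomial (Fin n) R →ₐ[R] Polynomial (MvPolynomial (Fin n) R) :=
  aeval (fun k => if k = i then Polynomial.X else Polynomial.C (X k))

theorem Th_X_self (i : Fin n) : Th R i (X i) = Polynomial.X := by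
  unfold Th; rw [aeval_X, if_pos rfl]

theorem Th_X_ne {i k : Fin n} (h : k ≠ i) : Th R i (X k) = Polynomial.C (X k) := by
  unfold Th; rw [aeval_X, if_neg h]

theorem Th_C (i : Fin n) (r : R) : Th R i (C r) = Polynomial.C (C r) := (Th R i).commutes r

theorem Th_eval (i : Fin n) (f : MvPolynomial (Fin n) R) : (Th R i f).eval (X i) = f := by
  have h : ((Polynomial.evalRingHom (X i : MvPolynomial (Fin n) R)).comp
      (Th R i : MvPolynomial (Fin n) R →+* Polynomial (MvPolynomial (Fin n) R))) =
      RingHom.id _ := by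
    apply MvPolynomial.ringHom_ext
    · intro r
      simp [Th_C]
    · intro k
      by_cases hk : k = i
      · subst hk; simp [Th_X_self]
      · simp [Th_X_ne hk]
  exact congrArg (fun φ : MvPolynomial (Fin n) R →+* MvPolynomial (Fin n) R => φ f) h

theorem Th_of_supported {i : Fin n} {V : Set (Fin n)} (hi : i ∉ V) {f : MvPolynomial (Fin n) R}
    (h : f ∈ supported R V) : Th R i f = Polynomial.C f := by
  have h' : f ∈ Algebra.adjoin R (X '' V : Set (MvPolynomial (Fin n) R)) := h
  clear h
  induction h' using Algebra.adjoin_induction with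
  | mem x hx =>
    obtain ⟨k, hk, rfl⟩ := hx
    exact Th_X_ne (fun h => hi (h ▸ hk))
  | algebraMap r => exact Th_C i r
  | add x y _ _ hx hy => rw [map_add, hx, hy, map_add]
  | mul x y _ _ hx hy => rw [map_mul, hx, hy, map_mul]

theorem Th_eval_coeff {i : Fin n} (Q : Polynomial (MvPolynomial (Fin n) R))
    (hQ : ∀ e, Q.coeff e ∈ supported R {k : Fin n | k ≠ i}) : Th R i (Q.eval (X i)) = Q := by
  rw [Polynomial.eval_eq_sum_range, map_sum]
  conv_rhs => rw [Polynomial.as_sum_range_C_mul_X_pow Q]
  apply Finset.sum_congr rfl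
  intro e _
  rw [map_mul, map_pow, Th_X_self, Th_of_supported (V := {k : Fin n | k ≠ i}) (by simp) (hQ e)]

theorem Th_map (i : Fin n) (φ : R →+* S) (f : MvPolynomial (Fin n) R) :
    Th S i (map φ f) = (Th R i f).map (map φ) := by
  have h : ((Th S i : MvPolynomial (Fin n) S →+* Polynomial (MvPolynomial (Fin n) S)).comp
      (map φ)) = (Polynomial.mapRingHom (map φ)).comp
      (Th R i : MvPolynomial (Fin n) R →+* Polynomial (MvPolynomial (Fin n) R)) := by
    apply MvPolynomial.ringHom_ext
    · intro r
      simp [Th_C]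
    · intro k
      by_cases hk : k = i
      · subst hk; simp [Th_X_self]
      · simp [Th_X_ne hk]
  exact congrArg (fun ψ : MvPolynomial (Fin n) R →+* Polynomial (MvPolynomial (Fin n) S) => ψ f) h

/-- the polynomials over `A` with coefficients in `B` -/
theorem coeff_mem_of_gen {A : Type*} [CommRing A] [Algebra R A] (B : Subalgebra R A)
    {p q : Polynomial A} (hp : ∀ e, p.coeff e ∈ B) (hq : ∀ e, q.coeff e ∈ B) :
    ∀ e, (p * q).coeff e ∈ B := by
  intro e
  rw [Polynomial.coeff_mul]
  exact Subalgebra.sum_mem _ fun x _ => Subalgebra.mul_mem _ (hp _) (hq _)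

theorem Th_coeff_mem (i : Fin n) {V : Set (Fin n)} {f : MvPolynomial (Fin n) R}
    (h : f ∈ supported R V) (e : ℕ) : (Th R i f).coeff e ∈ supported R (V \ {i}) := by
  have h' : f ∈ Algebra.adjoin R (X '' V : Set (MvPolynomial (Fin n) R)) := h
  clear h
  revert e
  induction h' using Algebra.adjoin_induction with
  | mem x hx =>
    obtain ⟨k, hk, rfl⟩ := hx
    intro e
    by_cases hki : k = i
    · subst hki
      rw [Th_X_self, Polynomial.coeff_X]
      split_ifs
      · exact Subalgebra.one_mem _
      · exact Subalgebra.zero_mem _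
    · rw [Th_X_ne hki, Polynomial.coeff_C]
      split_ifs
      · exact Algebra.subset_adjoin ⟨k, ⟨hk, hki⟩, rfl⟩
      · exact Subalgebra.zero_mem _
  | algebraMap r =>
    intro e
    have : Th R i (algebraMap R (MvPolynomial (Fin n) R) r) = Polynomial.C (C r) := Th_C i r
    rw [this, Polynomial.coeff_C]
    split_ifs
    · exact Subalgebra.algebraMap_mem _ r
    · exact Subalgebra.zero_mem _
  | add x y _ _ hx hy =>
    intro e
    rw [map_add, Polynomial.coeff_add]
    exact Subalgebra.add_mem _ (hx e) (hy e)
  | mul x y _ _ hx hy =>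
    intro e
    rw [map_mul]
    exact coeff_mem_of_gen _ hx hy e

theorem map_mem_supported (φ : R →+* S) {V : Set (Fin n)} {f : MvPolynomial (Fin n) R}
    (h : f ∈ supported R V) : map φ f ∈ supported S V := by
  rw [mem_supported] at h ⊢
  exact (Finset.coe_subset.2 (vars_map f φ)).trans h

theorem mem_supported_of_map {φ : R →+* S} (hφ : Function.Injective φ) {V : Set (Fin n)}
    {f : MvPolynomial (Fin n) R} (h : map φ f ∈ supported S V) : f ∈ supported R V := by
  rw [mem_supported] at h ⊢
  rwa [vars_map_of_injective f hφ] at h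

end Pool.Agent.TH670.BR
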