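import Mathlib
set_option autoImplicit false

/-!
Choice of a basis of a finitely generated module over a valuation ring among the generators.
-/

namespace Pool.Agent.TH670.BR

open Module

variable {O K V Z : Type*} [CommRing O] [IsDomain O] [ValuationRing O] [Field K] [Algebra O K]
  [IsFractionRing O K] [AddCommGroup V] [Module K V] [Fintype Z]

/-- In a finite nonzero family of elements of `K` there is one which divides all the others. -/
theorem exists_big {ι : Type*} (s : Finset ι) (α : ι → K) (h : ∃ i ∈ s, α i ≠ 0) :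
    ∃ i ∈ s, α i ≠ 0 ∧ ∀ j ∈ s, ∃ o : O, algebraMap O K o = α j / α i := by
  classical
  obtain ⟨i0, hi0, hne⟩ := h
  obtain ⟨i, hi, hmax⟩ := s.exists_max_image (fun i => ValuationRing.valuation O K (α i)) ⟨i0, hi0⟩
  have hv0 : ValuationRing.valuation O K (α i0) ≠ 0 := by
    rwa [Valuation.ne_zero_iff]
  have hvi : ValuationRing.valuation O K (α i) ≠ 0 := by
    intro h0
    have := hmax i0 hi0
    rw [h0] at this
    exact hv0 (le_zero_iff.1 this)
  have hαi : α i ≠ 0 := by rwa [Valuation.ne_zero_iff] at hvi
  refine ⟨i, hi, hαi, fun j hj => ?_⟩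
  have h1 : ValuationRing.valuation O K (α j / α i) ≤ 1 := by
    rw [map_div₀]
    exact div_le_one_of_le₀ (hmax j hj) zero_le
  have h2 : α j / α i ∈ (ValuationRing.valuation O K).integer := h1
  rw [ValuationRing.mem_integer_iff] at h2
  exact h2

theorem exists_sub (v : Z → V) : ∃ (T : Finset Z) (lam : Z → Z → O),
    LinearIndependent K (fun t : T => v t) ∧
    (∀ z, v z = ∑ t ∈ T, algebraMap O K (lam z t) • v t) := by
  classical
  -- sets of generators
  set P : Finset (Finset Z) := Finset.univ.filter fun T => ∀ z, ∃ lam : Z → O,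
    v z = ∑ t ∈ T, algebraMap O K (lam t) • v t with hP
  have hne : P.Nonempty := by
    refine ⟨Finset.univ, ?_⟩
    rw [hP, Finset.mem_filter]
    refine ⟨Finset.mem_univ _, fun z => ⟨fun t => if t = z then 1 else 0, ?_⟩⟩
    rw [Finset.sum_eq_single z]
    · simp
    · intro b _ hb
      simp [hb]
    · intro h
      exact absurd (Finset.mem_univ _) h
  obtain ⟨T, hT, hmin⟩ := P.exists_min_image Finset.card hne
  have hT' := (Finset.mem_filter.1 hT).2
  choose lam hlam using hT'
  refine ⟨T, lam, ?_, hlam⟩
  by_contra hdep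
  rw [Fintype.not_linearIndependent_iff] at hdep
  obtain ⟨g, hg, i1, hi1⟩ := hdep
  obtain ⟨i, -, hgi, hdiv⟩ := exists_big (O := O) (Finset.univ : Finset T) g
    ⟨i1, Finset.mem_univ _, hi1⟩
  have hdiv' : ∀ j : T, ∃ o : O, algebraMap O K o = g j / g i := fun j => hdiv j (Finset.mem_univ _)
  choose o ho using hdiv'
  -- `v i` is in the span of the others
  have hvi : v i = ∑ t ∈ T.erase i, algebraMap O K (if h : t ∈ T then - o ⟨t, h⟩ else 0) • v t := by
    have h1 : ∑ t : T, (g t / g i) • v t = 0 := by
      have : ∑ t : T, (g t / g i) • v t = (g i)⁻¹ • ∑ t : T, g t • v t := by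
        rw [Finset.smul_sum]
        refine Finset.sum_congr rfl fun t _ => ?_
        rw [smul_smul, div_eq_mul_inv, mul_comm]
      rw [this, hg, smul_zero]
    have h2 : ∑ t : T, (g t / g i) • v t =
        ∑ t ∈ T, algebraMap O K (if h : t ∈ T then o ⟨t, h⟩ else 0) • v t := by
      rw [← Finset.sum_coe_sort T]
      refine Finset.sum_congr rfl fun t _ => ?_
      rw [dif_pos t.2, ho]
    rw [h2, ← Finset.add_sum_erase T _ i.2, dif_pos i.2, ho, div_self hgi, one_smul] at h1
    rw [eq_neg_of_add_eq_zero_left h1, ← Finset.sum_neg_distrib]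
    refine Finset.sum_congr rfl fun t ht => ?_
    have htT : t ∈ T := Finset.mem_of_mem_erase ht
    rw [dif_pos htT, dif_pos htT, map_neg, neg_smul]
  have hmem : T.erase i ∈ P := by
    rw [hP, Finset.mem_filter]
    refine ⟨Finset.mem_univ _, fun z => ⟨fun t => lam z t + lam z i *
      (if h : t ∈ T then - o ⟨t, h⟩ else 0), ?_⟩⟩
    rw [hlam z, ← Finset.add_sum_erase T _ i.2]
    conv_lhs => rw [hvi]
    rw [Finset.smul_sum, ← Finset.sum_add_distrib]
    refine Finset.sum_congr rfl fun t _ => ?_
    rw [smul_smul, map_add, map_mul, add_smul, add_comm]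
  have h3 := hmin _ hmem
  rw [Finset.card_erase_of_mem i.2] at h3
  have h4 : 0 < T.card := Finset.card_pos.2 ⟨i, i.2⟩
  omega

/-- A finite family of vectors contains linearly independent vectors such that all vectors of the
family are combinations of them with coefficients in the valuation ring. -/
theorem exists_gen (v : Z → V) : ∃ (ρ : ℕ) (y : Fin ρ → Z) (lam : Z → Fin ρ → O),
    LinearIndependent K (fun t => v (y t)) ∧
    (∀ z, v z = ∑ t, algebraMap O K (lam z t) • v (y t)) ∧
    ∀ t t', lam (y t) t' = if t' = t then 1 else 0 := by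
  classical
  obtain ⟨T, lam, hli, hlam⟩ := exists_sub (O := O) (K := K) v
  set e := T.equivFin with he
  set y : Fin T.card → Z := fun t => (e.symm t : Z) with hy
  have hli' : LinearIndependent K (fun t => v (y t)) := hli.comp _ e.symm.injective
  have hsum : ∀ z, v z = ∑ t, algebraMap O K (lam z (y t)) • v (y t) := by
    intro z
    rw [hlam z, ← Finset.sum_coe_sort T]
    rw [← e.symm.sum_comp]
  refine ⟨T.card, y, fun z t => lam z (y t), hli', hsum, ?_⟩
  intro t t'
  have h1 := hsum (y t)
  have h2 : ∑ s, (algebraMap O K (lam (y t) (y s)) - if s = t then 1 else 0) • v (y s) = 0 := by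
    simp only [sub_smul, Finset.sum_sub_distrib, ← h1, ite_smul, one_smul, zero_smul,
      Finset.sum_ite_eq', Finset.mem_univ, if_true, sub_self]
  have h3 := (Fintype.linearIndependent_iff.1 hli') _ h2 t'
  rw [sub_eq_zero] at h3
  have hinj : Function.Injective (algebraMap O K) := IsFractionRing.injective O K
  apply hinj
  rw [h3]
  split_ifs <;> simp

end Pool.Agent.TH670.BR
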