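import Mathlib
import Pool.Agent.H530R2.SumRO2
import Pool.Agent.TH670.BR.Theta
import Pool.Agent.TH670.BR.Val
set_option autoImplicit false

/-!
Sums of read-once oblivious programs over a valued field: a reduction which is killed by the
generator is zero.
-/

namespace Pool.Agent.TH670.BR

open Module Polynomial Matrix Pool.Agent.H530R2

section vec

variable {k : Type*} [Field k] {w ρ : ℕ}

/-- the `l`-th index -/
def ix (h : ρ ≤ w) (l : Fin ρ) : Unit → Fin w := fun _ => Fin.castLE h l

/-- extension of a vector by zero -/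
def ext {A : Type*} [Zero A] (w : ℕ) {ρ : ℕ} (g : Fin ρ → A) : (Unit → Fin w) → A :=
  fun t => if h : (t ()).val < ρ then g ⟨(t ()).val, h⟩ else 0

theorem ext_ix {A : Type*} [Zero A] (h : ρ ≤ w) (g : Fin ρ → A) (l : Fin ρ) :
    ext w g (ix h l) = g l := by
  unfold ext ix
  rw [dif_pos (by simp)]
  rfl

theorem single_dot {A : Type*} [CommRing A] [Algebra k A] {ι : Type*} [Fintype ι] [DecidableEq ι]
    (i : ι) (q : ι → A) : emb A (Pi.single i (1 : k)) ⬝ᵥ q = q i := by
  unfold emb dotProduct
  rw [Finset.sum_eq_single i]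
  · simp
  · intro j _ hj
    simp [hj]
  · intro h; exact absurd (Finset.mem_univ _) h

theorem tpU {A : Type*} [CommRing A] (M : Matrix (Fin w) (Fin w) A) (f g : Unit → Fin w) :
    tp Unit M f g = M (f ()) (g ()) := by
  rw [tp_apply]
  simp

theorem CSn_congr (N N' : ℕ → Matrix (Fin w) (Fin w) k[X]) (a m : ℕ)
    (R : Submodule k ((Unit → Fin w) → k)) (h : ∀ j, a ≤ j → j < a + m → N j = N' j) :
    CSn Unit N a m R = CSn Unit N' a m R := by
  induction m with
  | zero => rfl
  | succ m ih =>
    show step Unit N (a + m) (CSn Unit N a m R) = step Unit N' (a + m) (CSn Unit N' a m R)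
    rw [ih fun j h1 h2 => h j h1 (by omega)]
    unfold H530R2.step coefM
    rw [h (a + m) (by omega) (by omega)]

end vec

section main

variable {k : Type*} [Field k] {O K : Type*} [CommRing O] [IsDomain O]
  [Field K] [Algebra O K] {n : ℕ}

/-- invariant of the elimination along the order `σ`, up to position `m` -/
def BInv {w c : ℕ} (st : O →+* k) (σ : Equiv.Perm (Fin n)) (N : ℕ → Matrix (Fin w) (Fin w) K[X])
    (v : (Unit → Fin w) → K) (σs : Fin c → Equiv.Perm (Fin n)) (f : MvPolynomial (Fin n) O)
    (m : ℕ) : Prop :=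
  ∃ (Λ : ℕ → Matrix (Fin w) (Fin w) k[X]) (ρ : ℕ) (hρ : ρ ≤ w) (cc : Fin ρ → (Unit → Fin w) → K)
    (H : Fin ρ → MvPolynomial (Fin n) O) (u0 : (Unit → Fin w) → k),
    (∀ l, H l ∈ MvPolynomial.supported O {i | m ≤ (σ.symm i).val}) ∧
    (∀ l, SumRO σs w {i | m ≤ (σ.symm i).val} (MvPolynomial.map (algebraMap O K) (H l) -
      emb _ (cc l) ⬝ᵥ (tp Unit (Pr (pv σ) N m (n - m)) *ᵥ emb _ v))) ∧
    (∀ l, Pi.single (ix hρ l) 1 ∈ CSn Unit Λ 0 m (Submodule.span k {u0})) ∧
    MvPolynomial.map st f = emb _ u0 ⬝ᵥ (tp Unit (Pr (pv σ) Λ 0 m) *ᵥ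
      ext w fun l => MvPolynomial.map st (H l))

variable [CharZero k] (a : Fin n → k) (ha : Function.Injective a)

include ha in
/-- the elements of the invariant are low in the chain -/
theorem BInv_mem {w : ℕ} (σ : Equiv.Perm (Fin n)) (f : MvPolynomial (Fin n) k) (m : ℕ)
    (hm : m ≤ n) (Λ : ℕ → Matrix (Fin w) (Fin w) k[X]) {ρ : ℕ} (hρ : ρ ≤ w)
    (h : Fin ρ → MvPolynomial (Fin n) k) (u0 : (Unit → Fin w) → k)
    (hs : ∀ l, h l ∈ MvPolynomial.supported k {i | m ≤ (σ.symm i).val})
    (hc : ∀ l, Pi.single (ix hρ l) 1 ∈ CSn Unit Λ 0 m (Submodule.span k {u0}))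
    (hf : f = emb _ u0 ⬝ᵥ (tp Unit (Pr (pv σ) Λ 0 m) *ᵥ ext w h)) (hf0 : f ≠ 0)
    (j : ℕ) (hj : f ∈ genI a (j + lcost w w)) (l : Fin ρ) : h l ∈ genI a j := by
  have hdec := Dec_lin a ha σ Λ
  have hrk : m = 0 ∨ 1 ≤ rk (pv σ : ℕ → MvPolynomial (Fin n) k) Λ 0 m := by
    rcases Nat.eq_zero_or_pos m with h0 | hpos
    · exact Or.inl h0
    · right
      by_contra hlt
      apply hf0
      have h0 : rk (pv σ : ℕ → MvPolynomial (Fin n) k) Λ 0 m = 0 := by omega
      rw [hf, rk_zero_imp _ _ _ _ h0]
      have : tp Unit (0 : Matrix (Fin w) (Fin w) (MvPolynomial (Fin n) k)) = 0 := by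
        ext s t
        simp [tp_apply]
      rw [this]
      simp [emb, dotProduct]
  set P := svChain a ha σ with hP
  have hqS : ∀ t, ext w h t ∈ P.S (0 + m) := by
    intro t
    rw [zero_add]
    unfold ext
    split_ifs with h1
    · exact hs _
    · exact Subalgebra.zero_mem _
  have k1 : Kills (Submodule.span k {u0}) (tp Unit (Pr (pv σ) Λ 0 m) *ᵥ ext w h)
      (P.I (j + lcost w w)) := by
    apply Kills_span
    intro r hr
    rw [Set.mem_singleton_iff] at hr
    subst hr
    rw [← hf]
    exact hj
  have k2 := hdec 0 m (by omega) hrk _ j _ hqS k1 _ (hc l)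
  rw [single_dot, ext_ix] at k2
  exact k2

variable [ValuationRing O] [IsFractionRing O K]

include ha in
theorem BInv_step {w c : ℕ} (st : O →+* k) (σ : Equiv.Perm (Fin n))
    (N : ℕ → Matrix (Fin w) (Fin w) K[X])
    (σs : Fin c → Equiv.Perm (Fin n)) (v : (Unit → Fin w) → K)
    (f : MvPolynomial (Fin n) O) (m : ℕ) (hm : m < n) (M : ℕ)
    (hIH : ∀ g : MvPolynomial (Fin n) O, SumRO σs (w * (w + 1)) Set.univ
      (MvPolynomial.map (algebraMap O K) g) → MvPolynomial.map st g ∈ genI a M →
      MvPolynomial.map st g = 0)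
    (hf0 : MvPolynomial.map st f ≠ 0)
    (hf : MvPolynomial.map st f ∈ genI a (M + 1 + lcost w w))
    (hinv : BInv (K := K) st σ N v σs f m) : BInv (K := K) st σ N v σs f (m + 1) := by
  classical
  obtain ⟨Λ, ρ, hρ, cc, H, u0, hHs, hG, hc, hval⟩ := hinv
  have hHs' : ∀ l, MvPolynomial.map st (H l) ∈
      MvPolynomial.supported k {i | m ≤ (σ.symm i).val} := fun l => map_mem_supported st (hHs l)
  have hmem := BInv_mem a ha σ (MvPolynomial.map st f) m hm.le Λ hρ
    (fun l => MvPolynomial.map st (H l)) u0 hHs' hc hval hf0 (M + 1) hf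
  set i : Fin n := σ ⟨m, hm⟩ with hi
  have hV : ({i | m ≤ (σ.symm i).val} \ {i} : Set (Fin n)) ⊆
      {i | m + 1 ≤ (σ.symm i).val} := by
    rintro i' ⟨hi1, hi2⟩
    simp only [Set.mem_ofPred_eq, Set.mem_singleton_iff] at hi1 hi2 ⊢
    have : (σ.symm i').val ≠ m := by
      intro h
      apply hi2
      rw [← σ.apply_symm_apply i', hi]
      congr 1
      exact Fin.ext h
    omega
  have hVne : ({i | m + 1 ≤ (σ.symm i).val} : Set (Fin n)) ⊆ {k : Fin n | k ≠ i} := by
    intro i' hi'
    simp only [Set.mem_ofPred_eq] at hi' ⊢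
    rintro rfl
    rw [hi, Equiv.symm_apply_apply] at hi'
    simp at hi'
  choose Q hQ1 hQ2 using fun l => (hG l).split i
  have hQ3 : ∀ l e, SumRO σs w {i | m + 1 ≤ (σ.symm i).val} ((Q l).coeff e) :=
    fun l e => (hQ2 l e).mono_V hV
  set p1 : (Unit → Fin w) → MvPolynomial (Fin n) K :=
    tp Unit (Pr (pv σ) N (m + 1) (n - (m + 1))) *ᵥ emb _ v with hp1
  have hp1S : ∀ t, p1 t ∈ MvPolynomial.supported K {i | m + 1 ≤ (σ.symm i).val} := by
    intro t
    have hPr : ∀ r f g, Pr (pv σ) N (m + 1) r f g ∈
        MvPolynomial.supported K {i : Fin n | m + 1 ≤ (σ.symm i).val} := by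
      intro r
      induction r with
      | zero =>
        intro f g
        rw [Pr_zero, Matrix.one_apply]
        split_ifs
        · exact Subalgebra.one_mem _
        · exact Subalgebra.zero_mem _
      | succ r ih =>
        intro f g
        rw [Pr_succ, Matrix.mul_apply]
        refine Subalgebra.sum_mem _ fun l _ => Subalgebra.mul_mem _ (ih _ _) ?_
        unfold Nh
        rw [Matrix.map_apply]
        have hx : (pv σ (m + 1 + r) : MvPolynomial (Fin n) K) ∈
            MvPolynomial.supported K {i : Fin n | m + 1 ≤ (σ.symm i).val} := by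
          unfold pv
          split_ifs with h1
          · rw [MvPolynomial.X_mem_supported]
            simp only [Set.mem_ofPred_eq, Equiv.symm_apply_apply]
            omega
          · exact Subalgebra.zero_mem _
        exact (Algebra.adjoin_le (S := MvPolynomial.supported K
          {i : Fin n | m + 1 ≤ (σ.symm i).val}) (by simpa using hx))
          (Polynomial.aeval_mem_adjoin_singleton K (pv σ (m + 1 + r)))
    rw [hp1]
    unfold Matrix.mulVec dotProduct emb
    refine Subalgebra.sum_mem _ fun j _ => Subalgebra.mul_mem _ ?_ (Subalgebra.algebraMap_mem _ _)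
    show (∏ s : Unit, (Pr (pv σ) N (m + 1) (n - (m + 1))) (t s) (j s)) ∈ _
    exact Subalgebra.prod_mem _ fun s _ => hPr _ _ _
  have hdotS : ∀ r : (Unit → Fin w) → K, emb _ r ⬝ᵥ p1 ∈
      MvPolynomial.supported K {i | m + 1 ≤ (σ.symm i).val} := by
    intro r
    unfold dotProduct emb
    exact Subalgebra.sum_mem _ fun i _ => Subalgebra.mul_mem _ (Subalgebra.algebraMap_mem _ _)
      (hp1S i)
  set ξ : Fin ρ → ℕ → (Unit → Fin w) → K := fun l e => cc l ᵥ* coefM Unit N m e with hξ
  -- the coefficients
  set Hc : Fin ρ → ℕ → MvPolynomial (Fin n) O := fun l e => (Th O i (H l)).coeff e with hHc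
  have hHcS : ∀ l e, Hc l e ∈ MvPolynomial.supported O {i | m + 1 ≤ (σ.symm i).val} :=
    fun l e => MvPolynomial.supported_mono hV (Th_coeff_mem i (hHs l) e)
  have fact1 : ∀ l e, MvPolynomial.map (algebraMap O K) (Hc l e) =
      (Q l).coeff e + emb _ (ξ l e) ⬝ᵥ p1 := by
    intro l e
    set Q' : (MvPolynomial (Fin n) K)[X] := ∑ e ∈ Finset.range (dB N Unit m),
      Polynomial.monomial e (emb _ (ξ l e) ⬝ᵥ p1) with hQ'
    have hcoef : ∀ e, Q'.coeff e = emb _ (ξ l e) ⬝ᵥ p1 := by
      intro e
      rw [hQ', Polynomial.finsetSum_coeff]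
      simp only [Polynomial.coeff_monomial]
      by_cases he : e < dB N Unit m
      · rw [Finset.sum_eq_single e]
        · simp
        · intro b _ hb
          rw [if_neg hb]
        · intro hb
          exact absurd (Finset.mem_range.2 he) hb
      · rw [Finset.sum_eq_zero]
        · have h0 : ξ l e = 0 := by
            simp only [hξ, coefM_eq_zero N Unit m e (not_lt.1 he), Matrix.vecMul_zero]
          rw [h0]
          simp [emb, dotProduct]
        · intro b hb
          rw [if_neg]
          rintro rfl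
          exact he (Finset.mem_range.1 hb)
    have h1 : MvPolynomial.map (algebraMap O K) (Hc l e) =
        (Th K i (MvPolynomial.map (algebraMap O K) (H l))).coeff e := by
      rw [Th_map, Polynomial.coeff_map]
    have h3 : Q'.eval (MvPolynomial.X i) =
        emb _ (cc l) ⬝ᵥ (tp Unit (Pr (pv σ) N m (n - m)) *ᵥ emb _ v) := by
      have h4 : Pr (pv σ : ℕ → MvPolynomial (Fin n) K) N m (n - m) =
          Nh (pv σ) N m * Pr (pv σ) N (m + 1) (n - (m + 1)) := by
        rw [← Pr_succ', show n - (m + 1) + 1 = n - m by omega]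
      rw [h4, tp_mul, ← Matrix.mulVec_mulVec, ← hp1, emb_vecMul_tp_Nh, hQ',
        Polynomial.eval_finsetSum, pv_mem_supported σ m hm]
      simp only [Polynomial.eval_monomial]
      rfl
    have h5 : MvPolynomial.map (algebraMap O K) (H l) = (Q l + Q').eval (MvPolynomial.X i) := by
      rw [Polynomial.eval_add, hQ1, h3]
      ring
    rw [h1, h5, Th_eval_coeff, Polynomial.coeff_add, hcoef]
    intro e
    rw [Polynomial.coeff_add, hcoef]
    exact MvPolynomial.supported_mono hVne
      (Subalgebra.add_mem _ (hQ3 l e).mem_supported (hdotS _))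
  have hpvk : (pv σ m : MvPolynomial (Fin n) k) = MvPolynomial.X i := pv_mem_supported σ m hm
  have fact3 : ∀ l e, MvPolynomial.map st (Hc l e) ∈ genI a M := by
    intro l e
    have h1 : MvPolynomial.map st (Hc l e) = (Th k i (MvPolynomial.map st (H l))).coeff e := by
      rw [Th_map, Polynomial.coeff_map]
    rw [h1]
    refine gen_free a ha σ M m hm (Th k i (MvPolynomial.map st (H l))) (fun e => ?_) ?_ e
    · exact MvPolynomial.supported_mono hV (Th_coeff_mem i (hHs' l) e)
    · rw [hpvk, Th_eval]
      exact hmem l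
  -- the degree
  set D : ℕ := (Finset.univ.sup fun l => (Th O i (H l)).natDegree) + 1 with hD
  have hHD : ∀ l, (Th O i (H l)).natDegree < D := by
    intro l
    exact Nat.lt_succ_of_le
      (Finset.le_sup (f := fun l => (Th O i (H l)).natDegree) (Finset.mem_univ l))
  have hHsum : ∀ l, H l = ∑ e : Fin D, Hc l e * (MvPolynomial.X i) ^ (e : ℕ) := by
    intro l
    conv_lhs => rw [← Th_eval i (H l), Polynomial.eval_eq_sum_range' (hHD l)]
    rw [Finset.sum_range]
  -- selection of a basis
  obtain ⟨ρ', y, lam, hli, hlam, hδ⟩ := exists_gen (O := O) (K := K)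
    (fun z : Fin ρ × Fin D => ξ z.1 z.2)
  have hρ' : ρ' ≤ w := by
    have := hli.fintype_card_le_finrank
    rw [Module.finrank_fintype_fun_eq_card, Fintype.card_fun, Fintype.card_fin,
      Fintype.card_fin, Fintype.card_unit, pow_one] at this
    exact this
  set H' : Fin ρ' → MvPolynomial (Fin n) O := fun t => Hc (y t).1 (y t).2 with hH'
  set cc' : Fin ρ' → (Unit → Fin w) → K := fun t => ξ (y t).1 (y t).2 with hcc'
  have hembsum : ∀ z : Fin ρ × Fin D, emb _ (ξ z.1 z.2) ⬝ᵥ p1 =
      ∑ t, MvPolynomial.C (algebraMap O K (lam z t)) * (emb _ (cc' t) ⬝ᵥ p1) := by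
    intro z
    rw [hlam z]
    simp only [hcc', emb, dotProduct, Finset.sum_apply, Pi.smul_apply, smul_eq_mul, map_sum,
      map_mul, Finset.sum_mul, Finset.mul_sum, MvPolynomial.algebraMap_eq]
    rw [Finset.sum_comm]
    apply Finset.sum_congr rfl
    intro t _
    apply Finset.sum_congr rfl
    intro i _
    ring
  have claim2 : ∀ z : Fin ρ × Fin D, MvPolynomial.map st (Hc z.1 z.2) =
      ∑ t, MvPolynomial.C (st (lam z t)) * MvPolynomial.map st (H' t) := by
    intro z
    have h1 : MvPolynomial.map st (Hc z.1 z.2 - ∑ t, MvPolynomial.C (lam z t) * H' t) =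
        MvPolynomial.map st (Hc z.1 z.2) -
          ∑ t, MvPolynomial.C (st (lam z t)) * MvPolynomial.map st (H' t) := by
      simp only [map_sub, map_sum, map_mul, MvPolynomial.map_C]
    rw [← sub_eq_zero, ← h1]
    apply hIH
    · have h2 : SumRO σs (w + w * ρ') {i | m + 1 ≤ (σ.symm i).val}
          ((Q z.1).coeff z.2 + ∑ t, (- algebraMap O K (lam z t)) •
            (Q (y t).1).coeff (y t).2) :=
        (hQ3 z.1 z.2).add (SumRO.sum ρ' _ _ fun t => hQ3 _ _)
      have h3 : MvPolynomial.map (algebraMap O K)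
          (Hc z.1 z.2 - ∑ t, MvPolynomial.C (lam z t) * H' t) =
          (Q z.1).coeff z.2 + ∑ t, (- algebraMap O K (lam z t)) •
            (Q (y t).1).coeff (y t).2 := by
        simp only [map_sub, map_sum, map_mul, MvPolynomial.map_C, fact1, hH']
        rw [hembsum z]
        simp only [hcc', mul_add, Finset.sum_add_distrib, MvPolynomial.smul_eq_C_mul, map_neg,
          neg_mul, Finset.sum_neg_distrib]
        ring
      rw [h3]
      refine (h2.mono ?_).mono_V (Set.subset_univ _)
      calc w + w * ρ' ≤ w + w * w := Nat.add_le_add_left (Nat.mul_le_mul_left _ hρ') _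
        _ = w * (w + 1) := by ring
    · rw [h1]
      refine Ideal.sub_mem _ (fact3 _ _) (Ideal.sum_mem _ fun t _ =>
        Ideal.mul_mem_left _ _ (fact3 _ _))
  -- the new layer
  set Lm : Matrix (Fin w) (Fin w) k[X] := fun p q => if hp : p.val < ρ then
    if hq : q.val < ρ' then ∑ e : Fin D, Polynomial.monomial (e : ℕ)
      (st (lam (⟨p.val, hp⟩, e) ⟨q.val, hq⟩)) else 0 else 0 with hLm
  set Λ' : ℕ → Matrix (Fin w) (Fin w) k[X] := Function.update Λ m Lm with hΛ'
  have hΛm : Λ' m = Lm := by rw [hΛ', Function.update_self]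
  have hΛne : ∀ j, 0 ≤ j → j < 0 + m → Λ' j = Λ j := by
    intro j _ hj
    rw [hΛ', Function.update_of_ne (by omega)]
  refine ⟨Λ', ρ', hρ', cc', H', u0, fun t => hHcS _ _, ?_, ?_, ?_⟩
  · intro t
    have h1 : MvPolynomial.map (algebraMap O K) (H' t) -
        emb _ (cc' t) ⬝ᵥ (tp Unit (Pr (pv σ) N (m + 1) (n - (m + 1))) *ᵥ emb _ v) =
        (Q (y t).1).coeff (y t).2 := by
      rw [hH', hcc', ← hp1]
      simp only [fact1]
      ring
    rw [h1]
    exact hQ3 _ _
  · intro t
    have h1 : CSn Unit Λ' 0 (m + 1) (Submodule.span k {u0}) =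
        H530R2.step Unit Λ' (0 + m) (CSn Unit Λ 0 m (Submodule.span k {u0})) := by
      rw [← CSn_congr Λ' Λ 0 m _ hΛne]
      rfl
    rw [h1]
    refine Submodule.subset_span ⟨_, hc (y t).1, ((y t).2 : ℕ), ?_⟩
    funext g
    have h2 : (Pi.single (ix hρ (y t).1) (1 : k) ᵥ* coefM Unit Λ' (0 + m) ((y t).2 : ℕ)) g =
        (Lm (Fin.castLE hρ (y t).1) (g ())).coeff ((y t).2 : ℕ) := by
      rw [Matrix.single_one_vecMul]
      simp only [Matrix.row_apply, coefM, Matrix.map_apply, tpU, zero_add, hΛm, ix]
    rw [h2, hLm]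
    simp only [Fin.val_castLE, Fin.is_lt, dif_pos, Fin.eta]
    by_cases hg : (g ()).val < ρ'
    · rw [dif_pos hg, Polynomial.finsetSum_coeff]
      simp only [Polynomial.coeff_monomial]
      rw [Finset.sum_eq_single (y t).2]
      · rw [if_pos rfl]
        have h3 := hδ t ⟨(g ()).val, hg⟩
        rw [show ((y t).1, (y t).2) = y t from rfl, h3]
        by_cases hgt : g = ix hρ' t
        · subst hgt
          simp [ix]
        · rw [Pi.single_eq_of_ne hgt, if_neg]
          · rw [map_zero]
          · intro h4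
            apply hgt
            funext x
            have h5 := congrArg Fin.val h4
            exact Fin.ext h5
      · intro e _ he
        rw [if_neg fun h => he (Fin.ext h)]
      · intro h; exact absurd (Finset.mem_univ _) h
    · rw [dif_neg hg, Polynomial.coeff_zero, Pi.single_eq_of_ne]
      rintro rfl
      exact hg (by simp [ix])
  · rw [hval, Pr_succ, tp_mul, ← Matrix.mulVec_mulVec,
      Pr_congr (pv σ) Λ' Λ 0 m hΛne]
    congr 2
    funext g
    -- entry of the layer
    have h1 : (tp Unit (Nh (pv σ : ℕ → MvPolynomial (Fin n) k) Λ' (0 + m)) *ᵥ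
        ext w fun t => MvPolynomial.map st (H' t)) g =
        ∑ t : Fin ρ', (Polynomial.aeval (MvPolynomial.X i : MvPolynomial (Fin n) k))
          (Lm (g ()) (Fin.castLE hρ' t)) * MvPolynomial.map st (H' t) := by
      unfold Matrix.mulVec dotProduct
      rw [← Finset.sum_subset (s₁ := Finset.univ.image (ix hρ'))]
      · rw [Finset.sum_image]
        · refine Finset.sum_congr rfl fun t _ => ?_
          rw [ext_ix]
          congr 1
          show tp Unit (Nh (pv σ : ℕ → MvPolynomial (Fin n) k) Λ' (0 + m)) g (ix hρ' t) = _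
          rw [tpU]
          simp only [zero_add, Nh, hΛm, Matrix.map_apply, ix, hpvk]
        · intro t _ t' _ h
          have h2 := congrArg Fin.val (congrFun h ())
          exact Fin.ext h2
      · exact Finset.subset_univ _
      · intro x _ hx
        have h2 : ext w (fun t => MvPolynomial.map st (H' t)) x = 0 := by
          unfold ext
          rw [dif_neg]
          intro h3
          apply hx
          rw [Finset.mem_image]
          exact ⟨⟨(x ()).val, h3⟩, Finset.mem_univ _, by funext s; exact Fin.ext rfl⟩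
        rw [h2, mul_zero]
    rw [h1]
    unfold ext
    by_cases hg : (g ()).val < ρ
    · rw [dif_pos hg]
      show MvPolynomial.map st (H ⟨(g ()).val, hg⟩) = _
      rw [hHsum ⟨(g ()).val, hg⟩, map_sum]
      simp only [map_mul, map_pow, MvPolynomial.map_X]
      simp only [claim2 (⟨(g ()).val, hg⟩, _)]
      rw [hLm]
      simp only [dif_pos hg, Fin.val_castLE, Fin.is_lt, dif_pos, Fin.eta, map_sum,
        Polynomial.aeval_monomial, MvPolynomial.algebraMap_eq, Finset.sum_mul]
      rw [Finset.sum_comm]
      refine Finset.sum_congr rfl fun t _ => Finset.sum_congr rfl fun e _ => ?_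
      ring
    · rw [dif_neg hg]
      symm
      refine Finset.sum_eq_zero fun t _ => ?_
      rw [hLm]
      simp only [dif_neg hg, map_zero, zero_mul]

include ha in
/-- **Main theorem.** The reduction `f` of a sum of `c` read-once oblivious programs of width `w`
over a valued field, in arbitrary orders, is zero if it vanishes on the generator with
`seeds2 c w` seed pairs. -/
theorem border_eq_zero (st : O →+* k) (c : ℕ) : ∀ (w : ℕ) (σs : Fin c → Equiv.Perm (Fin n))
    (f : MvPolynomial (Fin n) O), SumRO σs w Set.univ (MvPolynomial.map (algebraMap O K) f) →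
    MvPolynomial.map st f ∈ genI a (seeds2 c w) → MvPolynomial.map st f = 0 := by
  have hinj : Function.Injective (algebraMap O K) := IsFractionRing.injective O K
  have hinj' : Function.Injective (MvPolynomial.map (algebraMap O K) :
      MvPolynomial (Fin n) O → MvPolynomial (Fin n) K) := MvPolynomial.map_injective _ hinj
  induction c with
  | zero =>
    rintro w σs f ⟨A, hA, hs⟩ _
    have : f = 0 := by
      apply hinj'
      rw [hs, map_zero]
      simp
    rw [this, map_zero]
  | succ c ih =>
    rintro w σs f ⟨A, hA, hs⟩ hf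
    set σ := σs (Fin.last c) with hσ
    set σs' : Fin c → Equiv.Perm (Fin n) := fun i => σs i.castSucc with hσs'
    set g : MvPolynomial (Fin n) K := ∑ i : Fin c, A i.castSucc with hg
    have hgR : SumRO σs' w Set.univ g := ⟨fun i => A i.castSucc, fun i => hA _, rfl⟩
    obtain ⟨N0, u', v0, _, hh⟩ := hA (Fin.last c)
    set N := toSeq σ N0 with hN
    set u : (Unit → Fin w) → K := fun t => u' (t ()) with hu
    set v : (Unit → Fin w) → K := fun t => v0 (t ()) with hv
    have hh2 : A (Fin.last c) = emb _ u ⬝ᵥ (tp Unit (Pr (pv σ) N 0 n) *ᵥ emb _ v) := by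
      rw [hh, roVal, dot_unit]
    rw [Fin.sum_univ_castSucc, ← hg] at hs
    rw [seeds2] at hf
    set M := seeds2 c (w * (w + 1)) with hM
    have hIH : ∀ g : MvPolynomial (Fin n) O, SumRO σs' (w * (w + 1)) Set.univ
      (MvPolynomial.map (algebraMap O K) g) → MvPolynomial.map st g ∈ genI a M →
      MvPolynomial.map st g = 0 := ih (w * (w + 1)) σs'
    rcases Nat.eq_zero_or_pos w with hw0 | hw
    · subst hw0
      have h1 : A (Fin.last c) = 0 := by
        rw [hh, roVal]
        simp [dotProduct]
      rw [h1, add_zero] at hs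
      apply hIH f
      · rw [hs]
        exact hgR
      · exact I_antitone (svChain a ha σ) (by omega) hf
    · by_contra hf0
      rw [show lcost w w + 1 + M = M + 1 + lcost w w by ring] at hf
      have hinv : ∀ m ≤ n, BInv (K := K) st σ N v σs' f m := by
        intro m
        induction m with
        | zero =>
          intro _
          refine ⟨fun _ => 1, 1, hw, fun _ => u, fun _ => f, Pi.single (ix hw 0) 1,
            ?_, ?_, ?_, ?_⟩
          · intro _
            rw [MvPolynomial.mem_supported]
            intro i _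
            exact Nat.zero_le _
          · intro _
            have h1 : MvPolynomial.map (algebraMap O K) f -
                emb _ u ⬝ᵥ (tp Unit (Pr (pv σ) N 0 (n - 0)) *ᵥ emb _ v) = g := by
              rw [hs, hh2, Nat.sub_zero]
              ring
            rw [h1]
            exact hgR.mono_V (fun i _ => Nat.zero_le _)
          · intro l
            have : l = 0 := Subsingleton.elim _ _
            subst this
            exact Submodule.subset_span rfl
          · rw [Pr_zero, tp_one, Matrix.one_mulVec, single_dot, ext_ix]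
        | succ m ihm =>
          intro hm
          exact BInv_step a ha st σ N σs' v f m (by omega) M hIH hf0 hf (ihm (by omega))
      obtain ⟨Λ, ρ, hρ, cc, H, u0, hHs, hG, hc, hval⟩ := hinv n le_rfl
      have hHs' : ∀ l, MvPolynomial.map st (H l) ∈
          MvPolynomial.supported k {i | n ≤ (σ.symm i).val} := fun l => map_mem_supported st (hHs l)
      have hmem := BInv_mem a ha σ (MvPolynomial.map st f) n le_rfl Λ hρ
        (fun l => MvPolynomial.map st (H l)) u0 hHs' hc hval hf0 (M + 1) hf
      apply hf0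
      rw [hval]
      have h0 : (ext w fun l => MvPolynomial.map st (H l)) =
          (0 : (Unit → Fin w) → MvPolynomial (Fin n) k) := by
        funext t
        unfold ext
        split_ifs with h1
        · have h2 := hHs' ⟨(t ()).val, h1⟩
          have h3 : ({i | n ≤ (σ.symm i).val} : Set (Fin n)) = ∅ := by
            ext i
            simp only [Set.mem_ofPred_eq, Set.mem_empty_iff_false, iff_false, not_le]
            exact (σ.symm i).isLt
          rw [h3, MvPolynomial.supported_empty] at h2
          obtain ⟨γ, hγ⟩ := Algebra.mem_bot.1 h2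
          have h4 := hmem ⟨(t ()).val, h1⟩
          show MvPolynomial.map st (H ⟨(t ()).val, h1⟩) = 0
          rw [← hγ] at h4 ⊢
          rw [const_mem_I (svChain a ha σ) h4, map_zero]
        · rfl
      rw [h0, Matrix.mulVec_zero, dotProduct_zero]

end main

end Pool.Agent.TH670.BR
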