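import Mathlib
import Pool.Agent.TH670.BR.Main
set_option autoImplicit false

/-!
Factors of products of sums of read-once programs over a valued field.
-/

namespace Pool.Agent.TH670.BR

open MvPolynomial Pool.Agent.H530R2

variable {k : Type*} [Field k] {O K : Type*} [CommRing O] [IsDomain O] [ValuationRing O]
  [Field K] [Algebra O K] [IsFractionRing O K] {n : ℕ}

/-- a polynomial with coefficients in the range of a ring homomorphism -/
theorem exists_map_eq {R S : Type*} [CommRing R] [CommRing S] {n : ℕ} (φ : R →+* S)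
    (p : MvPolynomial (Fin n) S) (h : ∀ m, ∃ r, φ r = coeff m p) :
    ∃ q : MvPolynomial (Fin n) R, map φ q = p := by
  classical
  choose r hr using h
  refine ⟨∑ m ∈ p.support, monomial m (r m), ?_⟩
  rw [map_sum]
  conv_rhs => rw [p.as_sum]
  refine Finset.sum_congr rfl fun m _ => ?_
  rw [map_monomial, hr]

/-- every nonzero polynomial is a multiple of a polynomial with nonzero reduction -/
theorem exists_normal (st : O →+* k) (g : MvPolynomial (Fin n) K) (hg : g ≠ 0) :
    ∃ (c : K) (G : MvPolynomial (Fin n) O), c ≠ 0 ∧ g = c • map (algebraMap O K) G ∧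
      map st G ≠ 0 := by
  classical
  obtain ⟨m0, hm0⟩ := MvPolynomial.ne_zero_iff.1 hg
  obtain ⟨i, hi, hne, hdiv⟩ := exists_big (O := O) g.support (fun m => coeff m g)
    ⟨m0, mem_support_iff.2 hm0, hm0⟩
  obtain ⟨G, hG⟩ := exists_map_eq (algebraMap O K) ((coeff i g)⁻¹ • g) (by
    intro m
    rw [coeff_smul, smul_eq_mul]
    by_cases hm : coeff m g = 0
    · exact ⟨0, by rw [hm, mul_zero, map_zero]⟩
    · obtain ⟨o, ho⟩ := hdiv m (mem_support_iff.2 hm)
      exact ⟨o, by rw [ho, div_eq_mul_inv, mul_comm]⟩)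
  refine ⟨coeff i g, G, hne, ?_, ?_⟩
  · rw [hG, smul_smul, mul_inv_cancel₀ hne, one_smul]
  · intro h0
    have h1 : algebraMap O K (coeff i G) = 1 := by
      rw [← coeff_map, hG, coeff_smul, smul_eq_mul, inv_mul_cancel₀ hne]
    have h2 : coeff i G = 1 := IsFractionRing.injective O K (by rw [h1, map_one])
    have h3 : coeff i (map st G) = 1 := by rw [coeff_map, h2, map_one]
    rw [h0, coeff_zero] at h3
    exact zero_ne_one h3

theorem SumRO.smul' {c w : ℕ} {σs : Fin c → Equiv.Perm (Fin n)} {V : Set (Fin n)}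
    {f : MvPolynomial (Fin n) K} (h : SumRO σs w V f) (d : K) : SumRO σs w V (d • f) := by
  obtain ⟨A, hA, rfl⟩ := h
  exact ⟨fun i => d • A i, fun i => (hA i).smul d, by rw [Finset.smul_sum]⟩

/-- **Factors.** A nonzero reduction of a factor of a product of sums of `c` programs of width `w`
is not killed by the generator. -/
theorem border_factor [CharZero k] (a : Fin n → k) (ha : Function.Injective a) (st : O →+* k)
    (c w r : ℕ) (σs : Fin r → Fin c → Equiv.Perm (Fin n)) (F : MvPolynomial (Fin n) O)
    (h : MvPolynomial (Fin n) K) (g : Fin r → MvPolynomial (Fin n) K)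
    (hg : ∀ j, SumRO (σs j) w Set.univ (g j)) (hg0 : ∀ j, g j ≠ 0)
    (hfac : map (algebraMap O K) F * h = ∏ j, g j) (hF0 : map st F ≠ 0) :
    map st F ∉ genI a (seeds2 c w) := by
  classical
  intro hmem
  have hinj : Function.Injective (map (algebraMap O K) :
      MvPolynomial (Fin n) O → MvPolynomial (Fin n) K) :=
    MvPolynomial.map_injective _ (IsFractionRing.injective O K)
  have hprime := genI_prime a (seeds2 c w)
  choose lam G hlam hgG hG0 using fun j => exists_normal st (g j) (hg0 j)
  have hGsum : ∀ j, SumRO (σs j) w Set.univ (map (algebraMap O K) (G j)) := by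
    intro j
    have : map (algebraMap O K) (G j) = (lam j)⁻¹ • g j := by
      rw [hgG j, smul_smul, inv_mul_cancel₀ (hlam j), one_smul]
    rw [this]
    exact SumRO.smul' (hg j) _
  have hGmem : ∀ j, map st (G j) ∉ genI a (seeds2 c w) := fun j hj =>
    hG0 j (border_eq_zero (K := K) a ha st c w (σs j) (G j) (hGsum j) hj)
  have hprod : (∏ j, map st (G j)) ∉ genI a (seeds2 c w) := by
    intro h1
    obtain ⟨j, _, hj⟩ := (Ideal.IsPrime.prod_mem_iff (s := Finset.univ)).1 h1
    exact hGmem j hj
  have hh0 : h ≠ 0 := by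
    rintro rfl
    rw [mul_zero] at hfac
    exact (Finset.prod_ne_zero_iff.2 fun j _ => hg0 j) hfac.symm
  obtain ⟨μ, H, hμ, hH, hH0⟩ := exists_normal st h hh0
  set Λ : K := ∏ j, lam j with hΛ
  have hΛ0 : Λ ≠ 0 := Finset.prod_ne_zero_iff.2 fun j _ => hlam j
  have hprodg : ∏ j, g j = C Λ * map (algebraMap O K) (∏ j, G j) := by
    have e0 : (C Λ : MvPolynomial (Fin n) K) = ∏ j, C (lam j) := by rw [hΛ, map_prod]
    rw [e0, map_prod, ← Finset.prod_mul_distrib]
    refine Finset.prod_congr rfl fun j _ => ?_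
    rw [hgG j, smul_eq_C_mul]
  have e1 : C μ * map (algebraMap O K) (F * H) =
      C Λ * map (algebraMap O K) (∏ j, G j) := by
    rw [← hprodg, ← hfac]
    conv_rhs => rw [hH, smul_eq_C_mul]
    rw [map_mul]
    ring
  rcases ValuationRing.isInteger_or_isInteger O (Λ / μ) with ⟨o, ho⟩ | ⟨o, ho⟩
  · have e2 : F * H = C o * ∏ j, G j := by
      apply hinj
      rw [map_mul (map (algebraMap O K)) (C o), map_C, ho]
      have h3 : C (Λ / μ) = C (μ⁻¹) * (C Λ : MvPolynomial (Fin n) K) := by
        rw [← map_mul]; congr 1; field_simp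
      rw [h3, mul_assoc, ← e1, ← mul_assoc, ← map_mul, inv_mul_cancel₀ hμ, map_one, one_mul]
    have e3 := congrArg (map st) e2
    rw [map_mul, map_mul, map_C, map_prod] at e3
    have h4 : C (st o) * ∏ j, map st (G j) ∈ genI a (seeds2 c w) := by
      rw [← e3]
      exact Ideal.mul_mem_right _ _ hmem
    rcases hprime.mem_or_mem h4 with h5 | h5
    · have h6 : st o = 0 := by
        by_contra h7
        apply hprime.ne_top
        rw [Ideal.eq_top_iff_one]
        have : (1 : MvPolynomial (Fin n) k) = C (st o)⁻¹ * C (st o) := by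
          rw [← map_mul, inv_mul_cancel₀ h7, map_one]
        rw [this]
        exact Ideal.mul_mem_left _ _ h5
      rw [h6, map_zero, zero_mul] at e3
      rcases mul_eq_zero.1 e3 with h7 | h7
      · exact hF0 h7
      · exact hH0 h7
    · exact hprod h5
  · have e2 : C o * (F * H) = ∏ j, G j := by
      apply hinj
      rw [map_mul (map (algebraMap O K)) (C o), map_C, ho]
      have h3 : C ((Λ / μ)⁻¹) = C (Λ⁻¹) * (C μ : MvPolynomial (Fin n) K) := by
        rw [← map_mul]; congr 1; field_simp
      rw [h3, mul_assoc, e1, ← mul_assoc, ← map_mul, inv_mul_cancel₀ hΛ0, map_one, one_mul]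
    have e3 := congrArg (map st) e2
    rw [map_mul, map_mul, map_C, map_prod] at e3
    apply hprod
    rw [← e3]
    exact Ideal.mul_mem_left _ _ (Ideal.mul_mem_right _ _ hmem)

end Pool.Agent.TH670.BR
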