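import Mathlib
set_option autoImplicit false

/-!
The ultrapower of `ℂ`, its valuation ring of bounded elements and the limit map.
-/

namespace Pool.Agent.TH670.BR

open Filter Topology

/-- the ultrapower of the complex numbers -/
abbrev KK (U : Ultrafilter ℕ) : Type := (U : Filter ℕ).Germ ℂ

variable {U : Ultrafilter ℕ}

/-- bounded elements -/
def Bdd (x : KK U) : Prop := ∃ C : ℝ, x.LiftPred (fun z => ‖z‖ ≤ C)

theorem bdd_coe {f : ℕ → ℂ} : Bdd (f : KK U) ↔ ∃ C : ℝ, ∀ᶠ s in (U : Filter ℕ), ‖f s‖ ≤ C :=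
  Iff.rfl

theorem Bdd.mul {x y : KK U} (hx : Bdd x) (hy : Bdd y) : Bdd (x * y) := by
  induction x using Germ.inductionOn with | _ f => ?_
  induction y using Germ.inductionOn with | _ g => ?_
  obtain ⟨C, hC⟩ := bdd_coe.1 hx
  obtain ⟨D, hD⟩ := bdd_coe.1 hy
  rw [← Germ.coe_mul]
  refine bdd_coe.2 ⟨C * D, ?_⟩
  filter_upwards [hC, hD] with s h1 h2
  rw [Pi.mul_apply, norm_mul]
  exact mul_le_mul h1 h2 (norm_nonneg _) ((norm_nonneg _).trans h1)

theorem Bdd.add {x y : KK U} (hx : Bdd x) (hy : Bdd y) : Bdd (x + y) := by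
  induction x using Germ.inductionOn with | _ f => ?_
  induction y using Germ.inductionOn with | _ g => ?_
  obtain ⟨C, hC⟩ := bdd_coe.1 hx
  obtain ⟨D, hD⟩ := bdd_coe.1 hy
  rw [← Germ.coe_add]
  refine bdd_coe.2 ⟨C + D, ?_⟩
  filter_upwards [hC, hD] with s h1 h2
  rw [Pi.add_apply]
  exact (norm_add_le _ _).trans (add_le_add h1 h2)

theorem Bdd.neg {x : KK U} (hx : Bdd x) : Bdd (-x) := by
  induction x using Germ.inductionOn with | _ f => ?_
  obtain ⟨C, hC⟩ := bdd_coe.1 hx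
  rw [← Germ.coe_neg]
  refine bdd_coe.2 ⟨C, ?_⟩
  filter_upwards [hC] with s h1
  rwa [Pi.neg_apply, norm_neg]

theorem bdd_one : Bdd (1 : KK U) := by
  rw [← Germ.coe_one]
  exact bdd_coe.2 ⟨1, Eventually.of_forall fun s => by simp⟩

theorem bdd_zero : Bdd (0 : KK U) := by
  rw [← Germ.coe_zero]
  exact bdd_coe.2 ⟨0, Eventually.of_forall fun s => by simp⟩

theorem bdd_or_inv (x : KK U) : Bdd x ∨ Bdd x⁻¹ := by
  induction x using Germ.inductionOn with | _ f => ?_
  rcases Ultrafilter.em U (fun s => ‖f s‖ ≤ 1) with h | h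
  · exact Or.inl (bdd_coe.2 ⟨1, h⟩)
  · right
    rw [← Germ.coe_inv]
    refine bdd_coe.2 ⟨1, ?_⟩
    filter_upwards [h] with s h1
    rw [Pi.inv_apply, norm_inv]
    exact inv_le_one_of_one_le₀ (not_le.1 h1).le

/-- the valuation ring of the bounded elements -/
def OO (U : Ultrafilter ℕ) : ValuationSubring (KK U) where
  carrier := {x | Bdd x}
  mul_mem' := Bdd.mul
  one_mem' := bdd_one
  add_mem' := Bdd.add
  zero_mem' := bdd_zero
  neg_mem' := Bdd.neg
  mem_or_inv_mem' := bdd_or_inv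

theorem mem_OO {x : KK U} : x ∈ OO U ↔ Bdd x := Iff.rfl

theorem exists_lim {x : KK U} (h : Bdd x) : ∃ z : ℂ, x.Tendsto (𝓝 z) := by
  induction x using Germ.inductionOn with | _ f => ?_
  obtain ⟨C, hC⟩ := bdd_coe.1 h
  have h1 := (isCompact_closedBall (0 : ℂ) C).ultrafilter_le_nhds (U.map f) (by
    rw [Ultrafilter.coe_map, Filter.le_principal_iff, Filter.mem_map]
    filter_upwards [hC] with s hs
    simpa using hs)
  obtain ⟨z, _, hz⟩ := h1
  exact ⟨z, Germ.coe_tendsto.2 hz⟩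

theorem lim_unique {x : KK U} {z z' : ℂ} (h : x.Tendsto (𝓝 z)) (h' : x.Tendsto (𝓝 z')) :
    z = z' := by
  induction x using Germ.inductionOn with | _ f => ?_
  exact tendsto_nhds_unique (Germ.coe_tendsto.1 h) (Germ.coe_tendsto.1 h')

theorem lim_mul {x y : KK U} {z z' : ℂ} (h : x.Tendsto (𝓝 z)) (h' : y.Tendsto (𝓝 z')) :
    (x * y).Tendsto (𝓝 (z * z')) := by
  induction x using Germ.inductionOn with | _ f => ?_
  induction y using Germ.inductionOn with | _ g => ?_
  exact Germ.coe_tendsto.2 ((Germ.coe_tendsto.1 h).mul (Germ.coe_tendsto.1 h'))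

theorem lim_add {x y : KK U} {z z' : ℂ} (h : x.Tendsto (𝓝 z)) (h' : y.Tendsto (𝓝 z')) :
    (x + y).Tendsto (𝓝 (z + z')) := by
  induction x using Germ.inductionOn with | _ f => ?_
  induction y using Germ.inductionOn with | _ g => ?_
  exact Germ.coe_tendsto.2 ((Germ.coe_tendsto.1 h).add (Germ.coe_tendsto.1 h'))

theorem lim_const (z : ℂ) : ((fun _ : ℕ => z : ℕ → ℂ) : KK U).Tendsto (𝓝 z) :=
  Germ.coe_tendsto.2 tendsto_const_nhds

/-- the limit map -/
noncomputable def stU (U : Ultrafilter ℕ) : OO U →+* ℂ where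
  toFun x := Classical.choose (exists_lim (mem_OO.1 x.2))
  map_one' := lim_unique (Classical.choose_spec (exists_lim (mem_OO.1 (1 : OO U).2))) (lim_const 1)
  map_zero' := lim_unique (Classical.choose_spec (exists_lim (mem_OO.1 (0 : OO U).2)))
    (lim_const 0)
  map_mul' x y := lim_unique (Classical.choose_spec (exists_lim (mem_OO.1 (x * y).2)))
    (lim_mul (Classical.choose_spec (exists_lim (mem_OO.1 x.2)))
      (Classical.choose_spec (exists_lim (mem_OO.1 y.2))))
  map_add' x y := lim_unique (Classical.choose_spec (exists_lim (mem_OO.1 (x + y).2)))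
    (lim_add (Classical.choose_spec (exists_lim (mem_OO.1 x.2)))
      (Classical.choose_spec (exists_lim (mem_OO.1 y.2))))

theorem stU_eq {x : OO U} {z : ℂ} (h : (x : KK U).Tendsto (𝓝 z)) : stU U x = z :=
  lim_unique (Classical.choose_spec (exists_lim (mem_OO.1 x.2))) h

/-- a convergent sequence is bounded -/
theorem bdd_of_tendsto {f : ℕ → ℂ} {z : ℂ} (h : Tendsto f (U : Filter ℕ) (𝓝 z)) :
    Bdd (f : KK U) := by
  refine bdd_coe.2 ⟨‖z‖ + 1, ?_⟩
  have h1 : Tendsto (fun s => ‖f s‖) (U : Filter ℕ) (𝓝 ‖z‖) := h.norm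
  filter_upwards [h1.eventually (gt_mem_nhds (show ‖z‖ < ‖z‖ + 1 by linarith))] with s hs
  exact hs.le

end Pool.Agent.TH670.BR
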