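import Mathlib
import Pool.Agent.TH670.BR.Gauss
import Pool.Agent.TH670.BR.UP
import Pool.Agent.TH670.BR.Coef
set_option autoImplicit false

/-!
Limits of sums of read-once oblivious programs are not killed by the generator.
-/

namespace Pool.Agent.TH670.BR

open MvPolynomial Pool.Agent.H530R2 Filter Topology

section pval

variable {R S : Type*} [CommRing R] [CommRing S] {n w : ℕ}

theorem ofFn_prod_congr {n w : ℕ} {A : Type*} [CommRing A] {f g : Fin n → Matrix (Fin w) (Fin w) A}
    (h : ∀ k a b, f k a b = g k a b) (a b : Fin w) :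
    (List.ofFn f).prod a b = (List.ofFn g).prod a b := by
  have : f = g := by
    funext k
    ext a' b'
    exact h k a' b'
  rw [this]

theorem map_pval (φ : R →+* S) (σ : Equiv.Perm (Fin n))
    (M : Fin n → Matrix (Fin w) (Fin w) (Polynomial R)) (u v : Fin w → R) :
    map φ (pval σ M u v) = pval σ (fun k => (M k).map (Polynomial.map φ)) (fun a => φ (u a))
      (fun b => φ (v b)) := by
  ext m
  rw [coeff_map, coeff_pval, coeff_pval, map_sum]
  refine Finset.sum_congr rfl fun a _ => ?_
  rw [map_sum]
  refine Finset.sum_congr rfl fun b _ => ?_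
  rw [map_mul, map_mul]
  congr 2
  have h := congrFun (congrFun (map_list_prod_apply φ (List.ofFn fun k : Fin n =>
      (M k).map fun q => q.coeff (m (σ k)))) a) b
  rw [Matrix.map_apply] at h
  rw [h, List.map_ofFn]
  refine ofFn_prod_congr (fun k a' b' => ?_) a b
  simp [Matrix.map_apply, Polynomial.coeff_map]

theorem isRO_pval {F : Type*} [Field F] (σ : Equiv.Perm (Fin n))
    (M : Fin n → Matrix (Fin w) (Fin w) (Polynomial F)) (u v : Fin w → F) :
    IsRO σ w Set.univ (pval σ M u v) := by
  refine ⟨fun i => M (σ.symm i), u, v, fun i hi => absurd (Set.mem_univ i) hi, ?_⟩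
  have key : ∀ m : ℕ, ∀ hm : m ≤ n,
      (List.ofFn fun k : Fin m => (M (Fin.castLE hm k)).map
        (Polynomial.aeval (X (σ (Fin.castLE hm k)) : MvPolynomial (Fin n) F))).prod =
      Pr (pv σ) (toSeq σ fun i => M (σ.symm i)) 0 m := by
    intro m
    induction m with
    | zero => intro _; simp [Pr_zero]
    | succ m ih =>
      intro hm
      rw [List.ofFn_succ', List.concat_eq_append, List.prod_append, List.prod_singleton, Pr_succ,
        ← ih (by omega)]
      congr 1
      unfold Nh toSeq
      rw [dif_pos (show 0 + m < n by omega)]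
      have h1 : (⟨0 + m, by omega⟩ : Fin n) = Fin.castLE hm (Fin.last m) := by
        apply Fin.ext
        simp
      rw [h1]
      simp only [Equiv.symm_apply_apply]
      have h2 : (pv σ (0 + m) : MvPolynomial (Fin n) F) = X (σ (Fin.castLE hm (Fin.last m))) := by
        rw [pv_mem_supported σ (0 + m) (by omega), h1]
      rw [h2]
  have key' := key n le_rfl
  unfold roVal pval
  rw [← key']
  simp only [Fin.castLE_rfl, id, dotProduct, Matrix.mulVec, emb, MvPolynomial.algebraMap_eq,
    Finset.mul_sum, mul_assoc]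

end pval

/-- `f` is a sum of `c` read-once programs of width `w`, each in its own order -/
def IsSum {R : Type*} [CommRing R] {n : ℕ} (c w : ℕ) (f : MvPolynomial (Fin n) R) : Prop :=
  ∃ (σ : Fin c → Equiv.Perm (Fin n))
    (M : Fin c → Fin n → Matrix (Fin w) (Fin w) (Polynomial R)) (u v : Fin c → Fin w → R),
    f = ∑ i, pval (σ i) (M i) (u i) (v i)

theorem lim_eq_zero {n c w : ℕ} (F : ℕ → MvPolynomial (Fin n) ℂ) (f : MvPolynomial (Fin n) ℂ)
    (hF : ∀ s, IsSum c w (F s))
    (hlim : ∀ m, Tendsto (fun s => coeff m (F s)) atTop (𝓝 (coeff m f)))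
    (a : Fin n → ℂ) (ha : Function.Injective a) (hf : f ∈ genI a (seeds2 c w)) : f = 0 := by
  classical
  set U : Ultrafilter ℕ := Ultrafilter.of atTop with hU
  have hUle : (U : Filter ℕ) ≤ atTop := Ultrafilter.of_le _
  choose σ M u v hs using hF
  obtain ⟨σs, hσs⟩ := Ultrafilter.eq_pure_of_finite (U.map σ)
  have hev : ∀ᶠ s in (U : Filter ℕ), σ s = σs := by
    have h1 : {σs} ∈ U.map σ := by
      rw [hσs]
      exact Ultrafilter.mem_pure.2 rfl
    exact h1
  -- the degree bound
  set B : ℕ := f.totalDegree + 1 with hB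
  have hfB : ∀ m : Fin n →₀ ℕ, ∀ i, B ≤ m i → coeff m f = 0 := by
    intro m i hi
    by_contra hne
    have h1 := le_totalDegree (mem_support_iff.2 hne)
    have h2 : m i ≤ m.sum fun _ e => e := by
      by_cases h0 : m i = 0
      · rw [h0]; exact Nat.zero_le _
      · exact Finset.single_le_sum (f := fun i => m i) (fun _ _ => Nat.zero_le _)
          (Finsupp.mem_support_iff.2 h0)
    omega
  -- the program over the product ring
  set MR : Fin c → Fin n → Matrix (Fin w) (Fin w) (Polynomial (ℕ → ℂ)) := fun i k a b =>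
    ∑ e ∈ Finset.range B, Polynomial.monomial e (fun s => (M s i k a b).coeff e) with hMR
  have hMRc : ∀ i k a b e, (MR i k a b).coeff e =
      if e < B then (fun s => (M s i k a b).coeff e) else 0 := by
    intro i k a b e
    rw [hMR]
    simp only [Polynomial.finsetSum_coeff, Polynomial.coeff_monomial]
    rw [Finset.sum_ite_eq']
    simp only [Finset.mem_range]
  set FR : MvPolynomial (Fin n) (ℕ → ℂ) := ∑ i, pval (σs i) (MR i) (fun a s => u s i a)
    (fun b s => v s i b) with hFR
  have hc1 : ∀ (m : Fin n →₀ ℕ), (∀ i, m i < B) → ∀ s, σ s = σs →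
      (coeff m FR) s = coeff m (F s) := by
    intro m hm s hss
    rw [hFR, coeff_sum, hs s, coeff_sum, Finset.sum_apply]
    refine Finset.sum_congr rfl fun i _ => ?_
    rw [coeff_pval, coeff_pval, Finset.sum_apply]
    refine Finset.sum_congr rfl fun a _ => ?_
    rw [Finset.sum_apply]
    refine Finset.sum_congr rfl fun b _ => ?_
    rw [Pi.mul_apply, Pi.mul_apply]
    congr 2
    have h := congrFun (congrFun (map_list_prod_apply (Pi.evalRingHom (fun _ : ℕ => ℂ) s)
      (List.ofFn fun k : Fin n => (MR i k).map fun q => q.coeff (m (σs i k)))) a) b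
    rw [Matrix.map_apply] at h
    refine h.trans ?_
    rw [List.map_ofFn, hss]
    refine ofFn_prod_congr (fun k a' b' => ?_) a b
    simp only [Function.comp, Matrix.map_apply, hMRc, if_pos (hm _)]
    rfl
  have hc2 : ∀ (m : Fin n →₀ ℕ) i, B ≤ m i → coeff m FR = 0 := by
    intro m i hi
    rw [hFR, coeff_sum]
    refine Finset.sum_eq_zero fun j _ => ?_
    rw [coeff_pval]
    refine Finset.sum_eq_zero fun a _ => Finset.sum_eq_zero fun b _ => ?_
    have h0 : (List.ofFn fun k : Fin n => (MR j k).map fun q => q.coeff (m (σs j k))).prod = 0 := by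
      apply List.prod_eq_zero
      rw [List.mem_ofFn]
      refine ⟨(σs j).symm i, ?_⟩
      ext a' b'
      rw [Matrix.map_apply, hMRc, Equiv.apply_symm_apply, if_neg (by omega)]
      rfl
    rw [h0]
    simp
  set FK : MvPolynomial (Fin n) (KK U) := map (Germ.coeRingHom (U : Filter ℕ)) FR with hFK
  have hcK : ∀ m, (coeff m FK).Tendsto (𝓝 (coeff m f)) := by
    intro m
    rw [hFK, coeff_map]
    show ((coeff m FR : ℕ → ℂ) : KK U).Tendsto _
    rw [Germ.coe_tendsto]
    by_cases hm : ∀ i, m i < B
    · refine Tendsto.congr' ?_ ((hlim m).mono_left hUle)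
      filter_upwards [hev] with s hss
      exact (hc1 m hm s hss).symm
    · push Not at hm
      obtain ⟨i, hi⟩ := hm
      rw [hc2 m i hi, hfB m i hi]
      exact tendsto_const_nhds
  obtain ⟨FO, hFO⟩ := exists_map_eq (algebraMap (OO U) (KK U)) FK (by
    intro m
    have h1 : Bdd (coeff m FK) := by
      have h2 := hcK m
      rw [hFK, coeff_map] at h2 ⊢
      exact bdd_of_tendsto (Germ.coe_tendsto.1 h2)
    exact ⟨⟨coeff m FK, h1⟩, rfl⟩)
  have hst : map (stU U) FO = f := by
    ext m
    rw [coeff_map]
    apply stU_eq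
    have h1 : ((coeff m FO : OO U) : KK U) = coeff m FK := by
      rw [← hFO, coeff_map]
      rfl
    rw [h1]
    exact hcK m
  have hsum : SumRO σs w Set.univ FK := by
    refine ⟨fun i => map (Germ.coeRingHom (U : Filter ℕ)) (pval (σs i) (MR i)
      (fun a s => u s i a) (fun b s => v s i b)), fun i => ?_, ?_⟩
    · show IsRO (σs i) w Set.univ (map (Germ.coeRingHom (U : Filter ℕ)) (pval (σs i) (MR i)
        (fun a s => u s i a) (fun b s => v s i b)))
      rw [map_pval]
      exact isRO_pval _ _ _ _
    · rw [hFK, hFR, map_sum]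
  rw [← hst] at hf ⊢
  exact border_eq_zero (K := KK U) a ha (stU U) c w σs FO (by rw [hFO]; exact hsum) hf

end Pool.Agent.TH670.BR
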