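import Mathlib
import Pool.Agent.TH670.BR.Lim
set_option autoImplicit false

/-!
Limits of factors of products of sums of read-once oblivious programs are not killed by the
generator.
-/

namespace Pool.Agent.TH670.BR

open MvPolynomial Pool.Agent.H530R2 Filter Topology

/-- A factor of a product divides the product of few of the factors. -/
theorem exists_few {n : ℕ} {ι : Type*} [DecidableEq ι] (f : MvPolynomial (Fin n) ℂ) (hf : f ≠ 0) :
    ∀ (J : Finset ι) (g : ι → MvPolynomial (Fin n) ℂ), f ∣ ∏ j ∈ J, g j →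
      ∃ J' ⊆ J, J'.card ≤ f.totalDegree ∧ f ∣ ∏ j ∈ J', g j := by
  induction f using UniqueFactorizationMonoid.induction_on_prime with
  | h₁ => exact absurd rfl hf
  | h₂ x hx =>
    intro J g _
    exact ⟨∅, Finset.empty_subset _, by simp, by simpa using hx.dvd⟩
  | h₃ a p ha hp ih =>
    intro J g hdvd
    obtain ⟨j0, hj0, q, hq⟩ := (Prime.dvd_finsetProd_iff hp _).1 ((dvd_mul_right p a).trans hdvd)
    set g2 := Function.update g j0 q with hg2
    have key : ∀ J' : Finset ι, j0 ∈ J' → ∏ j ∈ J', g j = p * ∏ j ∈ J', g2 j := by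
      intro J' hJ'
      rw [← Finset.mul_prod_erase J' g hJ', ← Finset.mul_prod_erase J' g2 hJ', hq, hg2,
        Function.update_self, mul_assoc]
      congr 2
      refine Finset.prod_congr rfl fun j hj => ?_
      rw [Function.update_of_ne (Finset.ne_of_mem_erase hj)]
    rw [key J hj0] at hdvd
    have h1 : a ∣ ∏ j ∈ J, g2 j := (mul_dvd_mul_iff_left hp.ne_zero).1 hdvd
    obtain ⟨J', hJ', hcard, hd⟩ := ih ha J g2 h1
    refine ⟨insert j0 J', Finset.insert_subset hj0 hJ', ?_, ?_⟩
    · rw [totalDegree_mul_of_isDomain hp.ne_zero ha]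
      have h2 : 1 ≤ p.totalDegree := by
        by_contra hlt
        have h3 : p.totalDegree = 0 := by omega
        rw [totalDegree_eq_zero_iff_eq_C] at h3
        apply hp.not_isUnit
        rw [h3]
        apply IsUnit.map
        rw [isUnit_iff_ne_zero]
        intro h4
        rw [h4, map_zero] at h3
        exact hp.ne_zero h3
      have := Finset.card_insert_le j0 J'
      omega
    · rw [key _ (Finset.mem_insert_self _ _)]
      refine mul_dvd_mul_left p (hd.trans ?_)
      exact Finset.prod_dvd_prod_of_subset _ _ _ (Finset.subset_insert _ _)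

/-- a sequence of polynomials of bounded degree is a polynomial over the ring of sequences -/
theorem exists_lift {n : ℕ} (E : ℕ) (p : ℕ → MvPolynomial (Fin n) ℂ)
    (hp : ∀ s, (p s).totalDegree ≤ E) : ∃ P : MvPolynomial (Fin n) (ℕ → ℂ),
      ∀ s m, (coeff m P) s = coeff m (p s) := by
  classical
  set box : Finset (Fin n →₀ ℕ) := Finset.Iic (Finsupp.equivFunOnFinite.symm fun _ => E) with hbox
  refine ⟨∑ m ∈ box, monomial m fun s => coeff m (p s), ?_⟩
  intro s m
  rw [coeff_sum]
  simp only [coeff_monomial]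
  rw [Finset.sum_ite_eq']
  split_ifs with h
  · rfl
  · by_contra hne
    have hne' : coeff m (p s) ≠ 0 := fun h0 => hne (by rw [h0]; rfl)
    apply h
    rw [hbox, Finset.mem_Iic]
    intro i
    have h1 := (le_totalDegree (mem_support_iff.2 hne')).trans (hp s)
    have h2 : m i ≤ m.sum fun _ e => e := by
      by_cases h0 : m i = 0
      · rw [h0]; exact Nat.zero_le _
      · exact Finset.single_le_sum (f := fun i => m i) (fun _ _ => Nat.zero_le _)
          (Finsupp.mem_support_iff.2 h0)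
    exact h2.trans h1

theorem ev_eq {n : ℕ} {P : MvPolynomial (Fin n) (ℕ → ℂ)} {p : MvPolynomial (Fin n) ℂ} {s : ℕ}
    (h : ∀ m, (coeff m P) s = coeff m p) : map (Pi.evalRingHom (fun _ : ℕ => ℂ) s) P = p := by
  ext m
  rw [coeff_map]
  exact h m

/-- lifting of sums of programs -/
theorem exists_sum_lift {n c w : ℕ} (U : Ultrafilter ℕ) (E : ℕ) (g : ℕ → MvPolynomial (Fin n) ℂ)
    (hE : ∀ s, (g s).totalDegree ≤ E) (hg : ∀ s, IsSum c w (g s)) :
    ∃ (σs : Fin c → Equiv.Perm (Fin n)) (P : MvPolynomial (Fin n) (ℕ → ℂ)),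
      SumRO σs w Set.univ (map (Germ.coeRingHom (U : Filter ℕ)) P : MvPolynomial (Fin n) (KK U)) ∧
      ∀ᶠ s in (U : Filter ℕ), ∀ m, (coeff m P) s = coeff m (g s) := by
  classical
  choose σ M u v hs using hg
  obtain ⟨σs, hσs⟩ := Ultrafilter.eq_pure_of_finite (U.map σ)
  have hev : ∀ᶠ s in (U : Filter ℕ), σ s = σs := by
    have h1 : {σs} ∈ U.map σ := by
      rw [hσs]
      exact Ultrafilter.mem_pure.2 rfl
    exact h1
  set B : ℕ := E + 1 with hB
  have hfB : ∀ s, ∀ m : Fin n →₀ ℕ, ∀ i, B ≤ m i → coeff m (g s) = 0 := by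
    intro s m i hi
    by_contra hne
    have h1 := (le_totalDegree (mem_support_iff.2 hne)).trans (hE s)
    have h2 : m i ≤ m.sum fun _ e => e := by
      by_cases h0 : m i = 0
      · rw [h0]; exact Nat.zero_le _
      · exact Finset.single_le_sum (f := fun i => m i) (fun _ _ => Nat.zero_le _)
          (Finsupp.mem_support_iff.2 h0)
    omega
  set MR : Fin c → Fin n → Matrix (Fin w) (Fin w) (Polynomial (ℕ → ℂ)) := fun i k a b =>
    ∑ e ∈ Finset.range B, Polynomial.monomial e (fun s => (M s i k a b).coeff e) with hMR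
  have hMRc : ∀ i k a b e, (MR i k a b).coeff e =
      if e < B then (fun s => (M s i k a b).coeff e) else 0 := by
    intro i k a b e
    rw [hMR]
    simp only [Polynomial.finsetSum_coeff, Polynomial.coeff_monomial]
    rw [Finset.sum_ite_eq']
    simp only [Finset.mem_range]
  set FR : MvPolynomial (Fin n) (ℕ → ℂ) := ∑ i, pval (σs i) (MR i) (fun a s => u s i a)
    (fun b s => v s i b) with hFR
  have hc1 : ∀ (m : Fin n →₀ ℕ), (∀ i, m i < B) → ∀ s, σ s = σs →
      (coeff m FR) s = coeff m (g s) := by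
    intro m hm s hss
    rw [hFR, coeff_sum, hs s, coeff_sum, Finset.sum_apply]
    refine Finset.sum_congr rfl fun i _ => ?_
    rw [coeff_pval, coeff_pval, Finset.sum_apply]
    refine Finset.sum_congr rfl fun a _ => ?_
    rw [Finset.sum_apply]
    refine Finset.sum_congr rfl fun b _ => ?_
    rw [Pi.mul_apply, Pi.mul_apply]
    congr 2
    have h := congrFun (congrFun (map_list_prod_apply (Pi.evalRingHom (fun _ : ℕ => ℂ) s)
      (List.ofFn fun k : Fin n => (MR i k).map fun q => q.coeff (m (σs i k)))) a) b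
    rw [Matrix.map_apply] at h
    refine h.trans ?_
    rw [List.map_ofFn, hss]
    refine ofFn_prod_congr (fun k a' b' => ?_) a b
    simp only [Function.comp, Matrix.map_apply, hMRc, if_pos (hm _)]
    rfl
  have hc2 : ∀ (m : Fin n →₀ ℕ) i, B ≤ m i → coeff m FR = 0 := by
    intro m i hi
    rw [hFR, coeff_sum]
    refine Finset.sum_eq_zero fun j _ => ?_
    rw [coeff_pval]
    refine Finset.sum_eq_zero fun a _ => Finset.sum_eq_zero fun b _ => ?_
    have h0 : (List.ofFn fun k : Fin n => (MR j k).map fun q => q.coeff (m (σs j k))).prod = 0 := by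
      apply List.prod_eq_zero
      rw [List.mem_ofFn]
      refine ⟨(σs j).symm i, ?_⟩
      ext a' b'
      rw [Matrix.map_apply, hMRc, Equiv.apply_symm_apply, if_neg (by omega)]
      rfl
    rw [h0]
    simp
  refine ⟨σs, FR, ?_, ?_⟩
  · refine ⟨fun i => map (Germ.coeRingHom (U : Filter ℕ)) (pval (σs i) (MR i)
      (fun a s => u s i a) (fun b s => v s i b)), fun i => ?_, ?_⟩
    · show IsRO (σs i) w Set.univ (map (Germ.coeRingHom (U : Filter ℕ)) (pval (σs i) (MR i)
        (fun a s => u s i a) (fun b s => v s i b)))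
      rw [map_pval]
      exact isRO_pval _ _ _ _
    · rw [hFR, map_sum]
  · filter_upwards [hev] with s hss m
    by_cases hm : ∀ i, m i < B
    · exact hc1 m hm s hss
    · push Not at hm
      obtain ⟨i, hi⟩ := hm
      rw [hc2 m i hi, hfB s m i hi]
      rfl

/-- limits of factors of products of `r` sums -/
theorem lim_factor {n c w r E : ℕ} (F h : ℕ → MvPolynomial (Fin n) ℂ)
    (g : ℕ → Fin r → MvPolynomial (Fin n) ℂ) (hg : ∀ s j, IsSum c w (g s j))
    (hE : ∀ s j, (g s j).totalDegree ≤ E) (hfac : ∀ s, F s * h s = ∏ j, g s j)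
    (h0 : ∀ s, ∏ j, g s j ≠ 0) (f : MvPolynomial (Fin n) ℂ)
    (hlim : ∀ m, Tendsto (fun s => coeff m (F s)) atTop (𝓝 (coeff m f))) (hf0 : f ≠ 0)
    (a : Fin n → ℂ) (ha : Function.Injective a) : f ∉ genI a (seeds2 c w) := by
  classical
  set U : Ultrafilter ℕ := Ultrafilter.of atTop with hU
  have hUle : (U : Filter ℕ) ≤ atTop := Ultrafilter.of_le _
  have hFh : ∀ s, F s ≠ 0 ∧ h s ≠ 0 := by
    intro s
    have h1 : F s * h s ≠ 0 := by rw [hfac]; exact h0 s
    exact ⟨left_ne_zero_of_mul h1, right_ne_zero_of_mul h1⟩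
  have hdeg : ∀ s, (F s).totalDegree + (h s).totalDegree ≤ r * E := by
    intro s
    rw [← totalDegree_mul_of_isDomain (hFh s).1 (hFh s).2, hfac]
    refine (totalDegree_finsetProd _ _).trans ?_
    refine (Finset.sum_le_sum fun j _ => hE s j).trans ?_
    simp
  obtain ⟨FR, hFR⟩ := exists_lift (r * E) F fun s => by have := hdeg s; omega
  obtain ⟨hR, hhR⟩ := exists_lift (r * E) h fun s => by have := hdeg s; omega
  choose σs P hP1 hP2 using fun j => exists_sum_lift (c := c) (w := w) U E (fun s => g s j)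
    (fun s => hE s j) (fun s => hg s j)
  have hev : ∀ᶠ s in (U : Filter ℕ), ∀ j, ∀ m, (coeff m (P j)) s = coeff m (g s j) :=
    Filter.eventually_all.2 hP2
  set G := Germ.coeRingHom (R := ℂ) (U : Filter ℕ) with hG
  have hfacK : map G FR * map G hR = ∏ j, map G (P j) := by
    rw [← map_mul, ← map_prod]
    ext m
    rw [coeff_map, coeff_map]
    show ((coeff m (FR * hR) : ℕ → ℂ) : KK U) = ((coeff m (∏ j, P j) : ℕ → ℂ) : KK U)
    rw [Germ.coe_eq]
    filter_upwards [hev] with s hs
    have e1 : map (Pi.evalRingHom (fun _ : ℕ => ℂ) s) (FR * hR) =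
        map (Pi.evalRingHom (fun _ : ℕ => ℂ) s) (∏ j, P j) := by
      rw [map_mul, map_prod, ev_eq (hFR s), ev_eq (hhR s), hfac]
      refine Finset.prod_congr rfl fun j _ => ?_
      rw [ev_eq (hs j)]
    have e2 := congrArg (coeff m) e1
    rw [coeff_map, coeff_map] at e2
    exact e2
  have hgK0 : ∀ j, map G (P j) ≠ 0 := by
    intro j hj
    have h1 : ∀ m, ∀ᶠ s in (U : Filter ℕ), (coeff m (P j)) s = 0 := by
      intro m
      have h2 := congrArg (coeff m) hj
      rw [coeff_map, coeff_zero] at h2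
      have h3 : ((coeff m (P j) : ℕ → ℂ) : KK U) = ((0 : ℕ → ℂ) : KK U) := h2
      rw [Germ.coe_eq] at h3
      exact h3
    have h2 : ∀ᶠ s in (U : Filter ℕ), ∀ m ∈ (P j).support, (coeff m (P j)) s = 0 :=
      (Filter.eventually_all_finset _).2 fun m _ => h1 m
    obtain ⟨s, hs1, hs2⟩ := (h2.and (hP2 j)).exists
    apply h0 s
    apply Finset.prod_eq_zero (Finset.mem_univ j)
    ext m
    rw [← hs2 m, coeff_zero]
    by_cases hm : m ∈ (P j).support
    · exact hs1 m hm
    · rw [notMem_support_iff.1 hm]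
      rfl
  have hcK : ∀ m, (coeff m (map G FR)).Tendsto (𝓝 (coeff m f)) := by
    intro m
    rw [coeff_map]
    show ((coeff m FR : ℕ → ℂ) : KK U).Tendsto _
    rw [Germ.coe_tendsto]
    refine Tendsto.congr (fun s => ?_) ((hlim m).mono_left hUle)
    exact (hFR s m).symm
  obtain ⟨FO, hFO⟩ := exists_map_eq (algebraMap (OO U) (KK U)) (map G FR) (by
    intro m
    have h1 : Bdd (coeff m (map G FR)) := by
      have h2 := hcK m
      rw [coeff_map] at h2 ⊢
      exact bdd_of_tendsto (Germ.coe_tendsto.1 h2)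
    exact ⟨⟨coeff m (map G FR), h1⟩, rfl⟩)
  have hst : map (stU U) FO = f := by
    ext m
    rw [coeff_map]
    apply stU_eq
    have h1 : ((coeff m FO : OO U) : KK U) = coeff m (map G FR) := by
      rw [← hFO, coeff_map]
      rfl
    rw [h1]
    exact hcK m
  rw [← hst]
  exact border_factor (K := KK U) a ha (stU U) c w r σs FO (map G hR) (fun j => map G (P j)) hP1
    hgK0 (by rw [hFO]; exact hfacK) (by rw [hst]; exact hf0)

/-- limits of factors of products of any numbers of sums -/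
theorem lim_factor' {n c w D E : ℕ} (F : ℕ → MvPolynomial (Fin n) ℂ)
    (hD : ∀ s, (F s).totalDegree ≤ D)
    (hF : ∀ s, ∃ (r : ℕ) (g : Fin r → MvPolynomial (Fin n) ℂ), (∀ j, IsSum c w (g j)) ∧
      (∀ j, (g j).totalDegree ≤ E) ∧ ∏ j, g j ≠ 0 ∧ F s ∣ ∏ j, g j)
    (f : MvPolynomial (Fin n) ℂ)
    (hlim : ∀ m, Tendsto (fun s => coeff m (F s)) atTop (𝓝 (coeff m f))) (hf0 : f ≠ 0)
    (a : Fin n → ℂ) (ha : Function.Injective a) : f ∉ genI a (seeds2 c w) := by
  classical
  have h1 : ∀ s, ∃ (r : ℕ) (g : Fin r → MvPolynomial (Fin n) ℂ), r ≤ D ∧ (∀ j, IsSum c w (g j)) ∧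
      (∀ j, (g j).totalDegree ≤ E) ∧ ∏ j, g j ≠ 0 ∧ F s ∣ ∏ j, g j := by
    intro s
    obtain ⟨r, g, hg1, hg2, hg3, hg4⟩ := hF s
    have hF0 : F s ≠ 0 := fun h0 => hg3 (zero_dvd_iff.1 (h0 ▸ hg4))
    obtain ⟨J, _, hJ, hd⟩ := exists_few (F s) hF0 Finset.univ g hg4
    have e := J.equivFin
    have hprod : ∏ i : Fin J.card, g (e.symm i) = ∏ j ∈ J, g j := by
      rw [← Finset.prod_coe_sort J, ← e.symm.prod_comp]
    refine ⟨J.card, fun i => g (e.symm i), hJ.trans (hD s), fun j => hg1 _, fun j => hg2 _, ?_, ?_⟩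
    · rw [hprod]
      exact Finset.prod_ne_zero_iff.2 fun j _ =>
        Finset.prod_ne_zero_iff.1 hg3 j (Finset.mem_univ _)
    · rw [hprod]; exact hd
  choose r g hr hg1 hg2 hg3 hg4 using h1
  obtain ⟨ρ, hρ⟩ : ∃ ρ, ∃ᶠ s in atTop, r s = ρ := by
    by_contra hcon
    push Not at hcon
    have h2 : ∀ ρ ∈ Finset.range (D + 1), ∀ᶠ s in atTop, r s ≠ ρ := by
      intro ρ _
      have := hcon ρ
      exact this
    have h3 := (Filter.eventually_all_finset _).2 h2
    obtain ⟨s, hs⟩ := h3.exists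
    exact hs (r s) (Finset.mem_range.2 (by have := hr s; omega)) rfl
  obtain ⟨φ, hφ, hφr⟩ := Filter.extraction_of_frequently_atTop hρ
  choose q hq using fun s => hg4 (φ s)
  have hprod : ∀ s, ∏ j : Fin ρ, g (φ s) (Fin.cast (hφr s).symm j) = ∏ j, g (φ s) j := by
    intro s
    exact Fintype.prod_equiv (finCongr (hφr s).symm) _ _ fun j => rfl
  exact lim_factor (c := c) (w := w) (r := ρ) (E := E) (fun s => F (φ s)) q
    (fun s j => g (φ s) (Fin.cast (hφr s).symm j)) (fun s j => hg1 _ _) (fun s j => hg2 _ _)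
    (fun s => by rw [hprod]; exact (hq s).symm) (fun s => by rw [hprod]; exact hg3 _) f
    (fun m => (hlim m).comp hφ.tendsto_atTop) hf0 a ha

end Pool.Agent.TH670.BR
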